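import Pool.Agent.H48.RMJ.Cert
import Pool.Agent.H34.RM.Rows2

set_option linter.style.longLine false

/-! The universal polynomial certificate. -/

namespace Pool.Agent.H48.RMJ

open Real Finset

theorem far_neg {σ : ℝ} (h : σ ≤ -3) : Rf σ + Tf σ * (σ ^ 2 / 4) ≤ 0 := by
  obtain ⟨r, rfl⟩ : ∃ r, σ = -3 - r := ⟨-3 - σ, by ring⟩
  have hr : 0 ≤ r := by linarith
  have e : Rf (-3 - r) + Tf (-3 - r) * ((-3 - r) ^ 2 / 4) =
      -(3931 / 50000 + 679 / 2000 * r + 1361 / 20000 * r ^ 2 +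
        r ^ 3 * (1 / 25000 * (r - 165 / 8) ^ 2 + (49 / 2500 - 1 / 25000 * (165 / 8) ^ 2))) := by
    unfold Rf Tf
    ring
  rw [e]
  have h1 : (0 : ℝ) ≤ 49 / 2500 - 1 / 25000 * (165 / 8) ^ 2 := by norm_num
  have h2 : 0 ≤ 1 / 25000 * (r - 165 / 8) ^ 2 + (49 / 2500 - 1 / 25000 * (165 / 8) ^ 2) := by
    have := sq_nonneg (r - 165 / 8)
    linarith
  have h3 := mul_nonneg (pow_nonneg hr 3) h2
  have h4 := pow_nonneg hr 2
  linarith

theorem exp_one_ge : (27 / 10 : ℝ) ≤ exp 1 := by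
  have := exp_one_gt_d9
  linarith

/-- lower bound of `exp (220 + r)` -/
theorem exp_big {r : ℝ} (hr : 0 ≤ r) : (10 : ℝ) ^ 93 * (1 + r / 5) ^ 5 ≤ exp (220 + r) := by
  rw [exp_add]
  have h1 : (10 : ℝ) ^ 93 ≤ exp 220 := by
    have e : exp 220 = exp 1 ^ 220 := by rw [← exp_nat_mul]; norm_num
    rw [e]
    refine le_trans ?_ (pow_le_pow_left₀ (by norm_num) exp_one_ge 220)
    norm_num
  have h2 : (1 + r / 5) ^ 5 ≤ exp r := by
    have e : exp r = exp (r / 5) ^ 5 := by rw [← exp_nat_mul]; congr 1; push_cast; ring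
    rw [e]
    refine pow_le_pow_left₀ (by positivity) ?_ 5
    linarith [add_one_le_exp (r / 5)]
  exact mul_le_mul h1 h2 (by positivity) (exp_pos _).le

theorem exp_mid {r : ℝ} (hr : 0 ≤ r) : (10 : ℝ) ^ 30 * (1 + 2 / 25 * r) ^ 5 ≤ exp (88 + 2 / 5 * r) := by
  rw [exp_add]
  have h1 : (10 : ℝ) ^ 30 ≤ exp 88 := by
    have e : exp 88 = exp 1 ^ 88 := by rw [← exp_nat_mul]; norm_num
    rw [e]
    refine le_trans ?_ (pow_le_pow_left₀ (by norm_num) exp_one_ge 88)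
    norm_num
  have h2 : (1 + 2 / 25 * r) ^ 5 ≤ exp (2 / 5 * r) := by
    have e : exp (2 / 5 * r) = exp (2 / 25 * r) ^ 5 := by
      rw [← exp_nat_mul]; congr 1; push_cast; ring
    rw [e]
    refine pow_le_pow_left₀ (by positivity) ?_ 5
    linarith [add_one_le_exp (2 / 25 * r)]
  exact mul_le_mul h1 h2 (by positivity) (exp_pos _).le

theorem Rf_big {r : ℝ} (hr : 0 ≤ r) : Rf (220 + r) ≤ 10 ^ 8 * (1 + 2 / 25 * r) ^ 5 := by
  have e : 10 ^ 8 * (1 + 2 / 25 * r) ^ 5 - Rf (220 + r) =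
      (10 ^ 8 - Rf 220) + (10 ^ 8 * (2 / 5) - (6548 / 10000 + 4 / 100000 * (5 * 220 ^ 4))) * r +
      (10 ^ 8 * (10 * (2 / 25) ^ 2) - 4 / 100000 * (10 * 220 ^ 3)) * r ^ 2 +
      (10 ^ 8 * (10 * (2 / 25) ^ 3) - 4 / 100000 * (10 * 220 ^ 2)) * r ^ 3 +
      (10 ^ 8 * (5 * (2 / 25) ^ 4) - 4 / 100000 * (5 * 220)) * r ^ 4 +
      (10 ^ 8 * (2 / 25) ^ 5 - 4 / 100000) * r ^ 5 := by
    unfold Rf
    ring
  have h0 : (0 : ℝ) ≤ 10 ^ 8 - Rf 220 := by unfold Rf; norm_num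
  have h1 : (0 : ℝ) ≤ 10 ^ 8 * (2 / 5) - (6548 / 10000 + 4 / 100000 * (5 * 220 ^ 4)) := by norm_num
  have h2 : (0 : ℝ) ≤ 10 ^ 8 * (10 * (2 / 25) ^ 2) - 4 / 100000 * (10 * 220 ^ 3) := by norm_num
  have h3 : (0 : ℝ) ≤ 10 ^ 8 * (10 * (2 / 25) ^ 3) - 4 / 100000 * (10 * 220 ^ 2) := by norm_num
  have h4 : (0 : ℝ) ≤ 10 ^ 8 * (5 * (2 / 25) ^ 4) - 4 / 100000 * (5 * 220) := by norm_num
  have h5 : (0 : ℝ) ≤ 10 ^ 8 * (2 / 25) ^ 5 - 4 / 100000 := by norm_num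
  have : 0 ≤ 10 ^ 8 * (1 + 2 / 25 * r) ^ 5 - Rf (220 + r) := by
    rw [e]
    positivity
  linarith

theorem Tf_big {r : ℝ} (hr : 0 ≤ r) :
    Tf (220 + r) * ((220 + r) ^ 2 / 4) ≤ 10 ^ 8 * (1 + 2 / 25 * r) ^ 5 := by
  have h1 : Tf (220 + r) ≤ 10 ^ 3 * (1 + 2 / 25 * r) ^ 2 := by
    have e : 10 ^ 3 * (1 + 2 / 25 * r) ^ 2 - Tf (220 + r) =
        (10 ^ 3 - Tf 220) + (10 ^ 3 * (4 / 25) - (172 / 1000 + 9 / 1000 * 440)) * r +
        (10 ^ 3 * (2 / 25) ^ 2 - 9 / 1000) * r ^ 2 := by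
      unfold Tf
      ring
    have h0 : (0 : ℝ) ≤ 10 ^ 3 - Tf 220 := by unfold Tf; norm_num
    have h1 : (0 : ℝ) ≤ 10 ^ 3 * (4 / 25) - (172 / 1000 + 9 / 1000 * 440) := by norm_num
    have h2 : (0 : ℝ) ≤ 10 ^ 3 * (2 / 25) ^ 2 - 9 / 1000 := by norm_num
    have : 0 ≤ 10 ^ 3 * (1 + 2 / 25 * r) ^ 2 - Tf (220 + r) := by
      rw [e]
      positivity
    linarith
  have h2 : (220 + r) ^ 2 / 4 ≤ 10 ^ 5 * (1 + 2 / 25 * r) ^ 2 := by
    nlinarith [pow_nonneg hr 2]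
  have h3 : Tf (220 + r) * ((220 + r) ^ 2 / 4) ≤
      (10 ^ 3 * (1 + 2 / 25 * r) ^ 2) * (10 ^ 5 * (1 + 2 / 25 * r) ^ 2) :=
    mul_le_mul h1 h2 (by positivity) (by positivity)
  have h4 : (10 ^ 3 * (1 + 2 / 25 * r) ^ 2) * (10 ^ 5 * (1 + 2 / 25 * r) ^ 2) =
      10 ^ 8 * (1 + 2 / 25 * r) ^ 4 * 1 := by ring
  have h5 : 10 ^ 8 * (1 + 2 / 25 * r) ^ 4 * 1 ≤ 10 ^ 8 * (1 + 2 / 25 * r) ^ 4 * (1 + 2 / 25 * r) := by
    refine mul_le_mul_of_nonneg_left ?_ (by positivity)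
    have : 0 ≤ 2 / 25 * r := by positivity
    linarith
  have h6 : 10 ^ 8 * (1 + 2 / 25 * r) ^ 4 * (1 + 2 / 25 * r) = 10 ^ 8 * (1 + 2 / 25 * r) ^ 5 := by ring
  linarith

/-- the test polynomial -/
noncomputable def P0 (y z : ℝ) : ℝ :=
  1 + 6548 / 10000 * (y + z) +
    y * z * (833 / 1000 + 172 / 1000 * (y + z) + 9 / 1000 * (y + z) ^ 2) +
    4 / 100000 * (y + z) ^ 5

theorem P0_eq (y z : ℝ) : P0 y z = Rf (y + z) + Tf (y + z) * (y * z) := by
  unfold P0 Rf Tf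
  ring

theorem P0_le (y z : ℝ) : P0 y z ≤ Rf (y + z) + Tf (y + z) * ((y + z) ^ 2 / 4) := by
  rw [P0_eq]
  have h := mul_le_mul_of_nonneg_left (show y * z ≤ (y + z) ^ 2 / 4 by nlinarith [sq_nonneg (y - z)])
    (Tf_pos (y + z)).le
  linarith

/-- the certificate inequality -/
theorem cert (y z : ℝ) :
    P0 y z ≤ 111 / 100 * exp (y + 2 / 5 * z) + 1 / 10 ^ 85 * (exp y + exp z) := by
  have hey := exp_pos y
  have hez := exp_pos z
  have hE := exp_pos (y + 2 / 5 * z)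
  have htail : 0 ≤ 1 / 10 ^ 85 * (exp y + exp z) := by positivity
  rcases le_total (y + z) (-3) with h1 | h1
  · have := far_neg h1
    have := P0_le y z
    linarith
  rcases le_total (y + z) 220 with h2 | h2
  · have h3 := central h1 h2 z
    have e1 : y + z - z = y := by ring
    have e2 : y + z - 3 / 5 * z = y + 2 / 5 * z := by ring
    rw [e1, e2] at h3
    rw [P0_eq, mul_comm y z]
    linarith
  · obtain ⟨r, hr⟩ : ∃ r, y + z = 220 + r := ⟨y + z - 220, by ring⟩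
    have hr0 : 0 ≤ r := by linarith
    have hR := Rf_big hr0
    have hT := Tf_big hr0
    have hTpos := Tf_pos (220 + r)
    have hbase : (1 : ℝ) ≤ 1 + 2 / 25 * r := by
      have : 0 ≤ 2 / 25 * r := by positivity
      linarith
    have h35 : (1 + 2 / 25 * r) ^ 5 ≤ (1 + r / 5) ^ 5 := by
      refine pow_le_pow_left₀ (by positivity) ?_ 5
      linarith
    have hpos : 0 ≤ (1 + 2 / 25 * r) ^ 5 := by positivity
    have hbig := exp_big hr0
    rcases le_total y 0 with hy | hy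
    · -- y ≤ 0, z ≥ 220 + r
      have hz : 220 + r ≤ z := by linarith
      have h4 : P0 y z ≤ Rf (220 + r) := by
        rw [P0_eq, hr]
        have : y * z ≤ 0 := mul_nonpos_of_nonpos_of_nonneg hy (by linarith)
        nlinarith
      have h5 : exp (220 + r) ≤ exp z := exp_le_exp.2 hz
      have h6 : (10 : ℝ) ^ 8 * (1 + 2 / 25 * r) ^ 5 ≤ 1 / 10 ^ 85 * ((10 : ℝ) ^ 93 * (1 + r / 5) ^ 5) := by
        have e : 1 / 10 ^ 85 * ((10 : ℝ) ^ 93 * (1 + r / 5) ^ 5) = 10 ^ 8 * (1 + r / 5) ^ 5 := by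
          rw [← mul_assoc]; norm_num
        rw [e]
        exact mul_le_mul_of_nonneg_left h35 (by positivity)
      have h7 : 1 / 10 ^ 85 * ((10 : ℝ) ^ 93 * (1 + r / 5) ^ 5) ≤ 1 / 10 ^ 85 * (exp y + exp z) := by
        refine mul_le_mul_of_nonneg_left ?_ (by positivity)
        linarith
      have h8 : 0 ≤ 111 / 100 * exp (y + 2 / 5 * z) := by positivity
      linarith
    · rcases le_total z 0 with hz | hz
      · have h4 : P0 y z ≤ Rf (220 + r) := by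
          rw [P0_eq, hr]
          have : y * z ≤ 0 := mul_nonpos_of_nonneg_of_nonpos hy hz
          nlinarith
        have h5 : exp (220 + r) ≤ exp (y + 2 / 5 * z) := exp_le_exp.2 (by linarith)
        have h6 : (10 : ℝ) ^ 8 * (1 + 2 / 25 * r) ^ 5 ≤ (10 : ℝ) ^ 93 * (1 + r / 5) ^ 5 :=
          mul_le_mul (by norm_num) h35 hpos (by positivity)
        linarith
      · have h4 : exp (88 + 2 / 5 * r) ≤ exp (y + 2 / 5 * z) := exp_le_exp.2 (by linarith)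
        have h5 := exp_mid hr0
        have h6 := P0_le y z
        rw [hr] at h6
        have h7 : (10 : ℝ) ^ 8 * (1 + 2 / 25 * r) ^ 5 ≤ 10 ^ 29 * (1 + 2 / 25 * r) ^ 5 :=
          mul_le_mul_of_nonneg_right (by norm_num) hpos
        have h8 : (10 : ℝ) ^ 30 * (1 + 2 / 25 * r) ^ 5 = 10 * (10 ^ 29 * (1 + 2 / 25 * r) ^ 5) := by
          ring
        linarith

theorem pow_le_one_add {x : ℝ} (hx : 0 ≤ x) {k : ℕ} (hk : k ≤ 5) : x ^ k ≤ 1 + x ^ 5 := by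
  rcases le_total x 1 with h | h
  · have := pow_le_one₀ (n := k) hx h
    have := pow_nonneg hx 5
    linarith
  · have := pow_le_pow_right₀ h hk
    linarith

theorem sum_pow_le {a b : ℝ} (ha : 0 ≤ a) (hb : 0 ≤ b) : (a + b) ^ 5 ≤ 16 * (a ^ 5 + b ^ 5) := by
  have := add_pow_le ha hb 5
  norm_num at this
  linarith

theorem growth0 (y z : ℝ) : P0 y z ≤ 40 * (1 + (max y 0) ^ 5 + (max z 0) ^ 5) := by
  have ha : 0 ≤ max y 0 := le_max_right _ _
  have hb : 0 ≤ max z 0 := le_max_right _ _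
  have ha5 := pow_nonneg ha 5
  have hb5 := pow_nonneg hb 5
  refine (P0_le y z).trans ?_
  rcases le_total (y + z) (-3) with h1 | h1
  · have := far_neg h1
    linarith
  have hσ : y + z ≤ max y 0 + max z 0 := add_le_add (le_max_left _ _) (le_max_left _ _)
  rcases le_total (y + z) 0 with h2 | h2
  · have h3 : Rf (y + z) + Tf (y + z) * ((y + z) ^ 2 / 4) ≤ 40 := by
      unfold Rf Tf
      set x := y + z
      have e1 : x ^ 5 ≤ 0 := by
        have : x ^ 5 = x ^ 4 * x := by ring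
        rw [this]
        exact mul_nonpos_of_nonneg_of_nonpos (by positivity) h2
      have e3 : x ^ 3 ≤ 0 := by
        have : x ^ 3 = x ^ 2 * x := by ring
        rw [this]
        exact mul_nonpos_of_nonneg_of_nonpos (by positivity) h2
      have e2 : x ^ 2 ≤ 9 := by nlinarith
      have e4 : x ^ 4 ≤ 81 := by
        have : x ^ 4 = x ^ 2 * x ^ 2 := by ring
        rw [this]
        nlinarith [sq_nonneg x]
      linarith
    linarith
  · have h5 : (y + z) ^ 5 ≤ 16 * ((max y 0) ^ 5 + (max z 0) ^ 5) :=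
      (pow_le_pow_left₀ h2 hσ 5).trans (sum_pow_le ha hb)
    have k1 := pow_le_one_add h2 (k := 1) (by norm_num)
    have k2 := pow_le_one_add h2 (k := 2) (by norm_num)
    have k3 := pow_le_one_add h2 (k := 3) (by norm_num)
    have k4 := pow_le_one_add h2 (k := 4) (by norm_num)
    rw [pow_one] at k1
    unfold Rf Tf
    linarith

/-- the coefficients of the test polynomial, in units of `1 / 10 ^ 5` -/
def cfN : ℕ → ℕ → ℕ
  | 0, 0 => 100000
  | 1, 0 => 65480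
  | 0, 1 => 65480
  | 1, 1 => 83300
  | 2, 1 => 17200
  | 1, 2 => 17200
  | 3, 1 => 900
  | 2, 2 => 1800
  | 1, 3 => 900
  | 5, 0 => 4
  | 4, 1 => 20
  | 3, 2 => 40
  | 2, 3 => 40
  | 1, 4 => 20
  | 0, 5 => 4
  | _, _ => 0

/-- the coefficients of the test polynomial -/
noncomputable def cf0 (i j : ℕ) : ℝ := (cfN i j : ℝ) / 100000

theorem cf0_nonneg (i j : ℕ) : 0 ≤ cf0 i j := by
  unfold cf0
  positivity

theorem cf0_zero : cf0 0 0 = 1 := by
  unfold cf0 cfN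
  norm_num

theorem pol_eq (y z : ℝ) : Pool.Agent.H34.RM.pol 6 cf0 y z = P0 y z := by
  unfold Pool.Agent.H34.RM.pol P0
  simp only [Finset.sum_range_succ, Finset.sum_range_zero, cf0, cfN]
  push_cast
  ring

theorem P0_symm (y z : ℝ) : P0 y z = P0 z y := by
  unfold P0
  ring

/-- red inequality of the certificate -/
theorem cert_red {l1 : ℝ} (hl : 1 / 10 ^ 85 ≤ l1) (y z : ℝ) :
    Pool.Agent.H34.RM.pol 6 cf0 y z ≤ 111 / 100 * exp (y + 2 / 5 * z) + l1 * (exp y + exp z) := by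
  rw [pol_eq]
  refine (cert y z).trans (add_le_add le_rfl (mul_le_mul_of_nonneg_right hl ?_))
  positivity

/-- blue inequality of the certificate -/
theorem cert_blue {l1 : ℝ} (hl : 1 / 10 ^ 85 ≤ l1) (y z : ℝ) :
    Pool.Agent.H34.RM.pol 6 cf0 y z ≤ 111 / 100 * exp (z + 2 / 5 * y) + l1 * (exp y + exp z) := by
  have := cert_red hl z y
  rw [pol_eq] at this ⊢
  rw [P0_symm]
  linarith

/-- growth of the test polynomial -/
theorem growth (y z : ℝ) :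
    Pool.Agent.H34.RM.pol 6 cf0 y z ≤ 40 * (1 + (max y 0) ^ 5 + (max z 0) ^ 5) := by
  rw [pol_eq]
  exact growth0 y z

end Pool.Agent.H48.RMJ
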