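import Mathlib

set_option linter.style.longLine false

/-! A certificate inequality in two real variables: reduction to one variable and pieces. -/

namespace Pool.Agent.H48.RMJ

open Real

/-- the coefficient of `y z` as a function of `σ = y + z` -/
noncomputable def Tf (σ : ℝ) : ℝ := (833 / 1000) + (43 / 250) * σ + (9 / 1000) * σ ^ 2

/-- the part of the certificate depending on `σ = y + z` only -/
noncomputable def Rf (σ : ℝ) : ℝ := 1 + (1637 / 2500) * σ + (1 / 25000) * σ ^ 5

theorem Tf_pos (σ : ℝ) : 0 < Tf σ := by
  unfold Tf
  nlinarith [sq_nonneg (σ + (86 / 9))]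

theorem tangent {σ z T R X z0 : ℝ} (hT : 0 < T) (hX : X = (111 / 100) * exp (σ - (3 / 5) * z0))
    (hG : (9 / 25) * X ^ 2 + T * (4 * R + T * σ ^ 2) ≤ T * (4 + (6 / 5) * (2 * z0 - σ)) * X) :
    R + T * (z * (σ - z)) ≤ (111 / 100) * exp (σ - (3 / 5) * z) := by
  have h1 : exp (σ - (3 / 5) * z) = exp (σ - (3 / 5) * z0) * exp (-((3 / 5) * (z - z0))) := by
    rw [← exp_add]; congr 1; ring
  have h2 : 1 - (3 / 5) * (z - z0) ≤ exp (-((3 / 5) * (z - z0))) := by
    have := add_one_le_exp (-((3 / 5) * (z - z0)))
    linarith
  have hE := exp_pos (σ - (3 / 5) * z0)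
  have h3 : X * (1 - (3 / 5) * (z - z0)) ≤ (111 / 100) * exp (σ - (3 / 5) * z) := by
    rw [h1, hX, mul_assoc]
    have := mul_le_mul_of_nonneg_left h2 hE.le
    linarith
  refine le_trans ?_ h3
  have h4 : 0 ≤ 4 * T * (X * (1 - (3 / 5) * (z - z0)) - (R + T * (z * (σ - z)))) := by
    have e : 4 * T * (X * (1 - (3 / 5) * (z - z0)) - (R + T * (z * (σ - z)))) =
        (2 * T * (z - z0) + (T * (2 * z0 - σ) - (3 / 5) * X)) ^ 2 +
        (T * (4 + (6 / 5) * (2 * z0 - σ)) * X - ((9 / 25) * X ^ 2 + T * (4 * R + T * σ ^ 2))) := by
      ring
    rw [e]
    have := sq_nonneg (2 * T * (z - z0) + (T * (2 * z0 - σ) - (3 / 5) * X))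
    linarith
  have h5 : 0 < 4 * T := by linarith
  have := nonneg_of_mul_nonneg_right h4 h5
  linarith

theorem exp_lower {x : ℝ} (hx : |x| ≤ 1) :
    1 + x + x ^ 2 / 2 + x ^ 3 / 6 + x ^ 4 / 24 + x ^ 5 / 120 - 7 / 4320 * x ^ 6 ≤ exp x := by
  have h := Real.exp_bound hx (n := 6) (by norm_num)
  rw [abs_le] at h
  have e : |x| ^ 6 = x ^ 6 := Even.pow_abs (by decide) x
  rw [e] at h
  have h1 := h.1
  simp only [Finset.sum_range_succ, Finset.sum_range_zero, Nat.factorial] at h1
  norm_num at h1
  linarith

theorem exp_upper {x : ℝ} (hx : |x| ≤ 1) :
    exp x ≤ 1 + x + x ^ 2 / 2 + x ^ 3 / 6 + x ^ 4 / 24 + x ^ 5 / 120 + 7 / 4320 * x ^ 6 := by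
  have h := Real.exp_bound hx (n := 6) (by norm_num)
  rw [abs_le] at h
  have e : |x| ^ 6 = x ^ 6 := Even.pow_abs (by decide) x
  rw [e] at h
  have h1 := h.2
  simp only [Finset.sum_range_succ, Finset.sum_range_zero, Nat.factorial] at h1
  norm_num at h1
  linarith

theorem bern9 {u v : ℝ} (hu : 0 ≤ u) (hv : 0 ≤ v) {b0 b1 b2 b3 b4 b5 b6 b7 b8 b9 : ℝ}
    (h0 : 0 ≤ b0) (h1 : 0 ≤ b1) (h2 : 0 ≤ b2) (h3 : 0 ≤ b3) (h4 : 0 ≤ b4) (h5 : 0 ≤ b5)
    (h6 : 0 ≤ b6) (h7 : 0 ≤ b7) (h8 : 0 ≤ b8) (h9 : 0 ≤ b9) :
    0 ≤ b0 * u ^ 9 + b1 * (u ^ 8 * v) + b2 * (u ^ 7 * v ^ 2) + b3 * (u ^ 6 * v ^ 3) +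
      b4 * (u ^ 5 * v ^ 4) + b5 * (u ^ 4 * v ^ 5) + b6 * (u ^ 3 * v ^ 6) + b7 * (u ^ 2 * v ^ 7) +
      b8 * (u * v ^ 8) + b9 * v ^ 9 := by
  positivity

theorem main {sc H z0c b rc κ lo hi : ℝ} (hlo : 0 ≤ lo) (h1 : lo ≤ exp rc) (h2 : exp rc ≤ hi)
    (hrc : rc = sc - (3 / 5) * z0c) (hκ : κ = 1 - (3 / 5) * b) (hκ0 : 0 ≤ κ) (hκH : 2 * κ * H ≤ 1)
    (hlin : ∀ h, -H ≤ h → h ≤ H → 0 ≤ 4 + (6 / 5) * (2 * (z0c + b * h) - (sc + h)))
    (hΨ : ∀ h, -H ≤ h → h ≤ H → 0 ≤
      Tf (sc + h) * (4 + (6 / 5) * (2 * (z0c + b * h) - (sc + h))) * ((111 / 100) * lo *
        (1 + κ * h + (κ * h) ^ 2 / 2 + (κ * h) ^ 3 / 6 + (κ * h) ^ 4 / 24 + (κ * h) ^ 5 / 120 -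
          7 / 4320 * (κ * h) ^ 6)) -
      (9 / 25) * ((111 / 100) * hi) ^ 2 *
        (1 + (2 * κ * h) + (2 * κ * h) ^ 2 / 2 + (2 * κ * h) ^ 3 / 6 + (2 * κ * h) ^ 4 / 24 +
          (2 * κ * h) ^ 5 / 120 + 7 / 4320 * (2 * κ * h) ^ 6) -
      Tf (sc + h) * (4 * Rf (sc + h) + Tf (sc + h) * (sc + h) ^ 2))
    {σ : ℝ} (hσ1 : sc - H ≤ σ) (hσ2 : σ ≤ sc + H) (z : ℝ) :
    Rf σ + Tf σ * (z * (σ - z)) ≤ (111 / 100) * exp (σ - (3 / 5) * z) := by
  obtain ⟨h, rfl⟩ : ∃ h, σ = sc + h := ⟨σ - sc, by ring⟩
  have hh1 : -H ≤ h := by linarith
  have hh2 : h ≤ H := by linarith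
  have hT := Tf_pos (sc + h)
  have habs : |h| ≤ H := abs_le.2 ⟨hh1, hh2⟩
  have hx2 : |2 * κ * h| ≤ 1 := by
    rw [abs_mul, abs_of_nonneg (by positivity)]
    exact (mul_le_mul_of_nonneg_left habs (by positivity)).trans hκH
  have hx1 : |κ * h| ≤ 1 := by
    have : |2 * κ * h| = 2 * |κ * h| := by rw [mul_assoc, abs_mul, abs_of_pos (by norm_num : (0:ℝ) < 2)]
    rw [this] at hx2
    have := abs_nonneg (κ * h)
    linarith
  have hL := exp_lower hx1
  have hU := exp_upper hx2
  have hp := exp_pos (κ * h)
  have hr := exp_pos rc
  set p := exp (κ * h) with hpdef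
  have hp2 : exp (2 * κ * h) = p ^ 2 := by
    rw [hpdef, ← exp_nat_mul]; congr 1; push_cast; ring
  rw [hp2] at hU
  have hXeq : (111 / 100) * (exp rc * p) = (111 / 100) * exp (sc + h - (3 / 5) * (z0c + b * h)) := by
    rw [hpdef, ← exp_add]
    congr 2
    rw [hrc, hκ]
    ring
  refine tangent hT hXeq ?_
  have hψ := hΨ h hh1 hh2
  have hl := hlin h hh1 hh2
  set L := 4 + (6 / 5) * (2 * (z0c + b * h) - (sc + h)) with hLdef
  set P := 1 + κ * h + (κ * h) ^ 2 / 2 + (κ * h) ^ 3 / 6 + (κ * h) ^ 4 / 24 + (κ * h) ^ 5 / 120 -
          7 / 4320 * (κ * h) ^ 6 with hP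
  set U := 1 + (2 * κ * h) + (2 * κ * h) ^ 2 / 2 + (2 * κ * h) ^ 3 / 6 + (2 * κ * h) ^ 4 / 24 +
          (2 * κ * h) ^ 5 / 120 + 7 / 4320 * (2 * κ * h) ^ 6 with hUdef
  have k1 : Tf (sc + h) * L * ((111 / 100) * lo * P) ≤ Tf (sc + h) * L * ((111 / 100) * (exp rc * p)) := by
    refine mul_le_mul_of_nonneg_left ?_ (by positivity)
    have a1 : lo * P ≤ lo * p := mul_le_mul_of_nonneg_left hL hlo
    have a2 : lo * p ≤ exp rc * p := mul_le_mul_of_nonneg_right h1 hp.le
    linarith
  have k2 : (9 / 25) * ((111 / 100) * (exp rc * p)) ^ 2 ≤ (9 / 25) * ((111 / 100) * hi) ^ 2 * U := by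
    have a1 : exp rc ^ 2 ≤ hi ^ 2 := pow_le_pow_left₀ hr.le h2 2
    have a2 : exp rc ^ 2 * p ^ 2 ≤ hi ^ 2 * U :=
      mul_le_mul a1 hU (by positivity) (by positivity)
    have e1 : (9 / 25) * ((111 / 100) * (exp rc * p)) ^ 2 = (9 / 25) * (111 / 100) ^ 2 * (exp rc ^ 2 * p ^ 2) := by ring
    have e2 : (9 / 25) * ((111 / 100) * hi) ^ 2 * U = (9 / 25) * (111 / 100) ^ 2 * (hi ^ 2 * U) := by ring
    rw [e1, e2]
    exact mul_le_mul_of_nonneg_left a2 (by norm_num)
  linarith

theorem enc_0 : (405064377 / 2500000000) ≤ exp (-91 / 50) ∧ exp (-91 / 50) ≤ (1620257511 / 10000000000) := by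
  have hx : |((-91 / 200) : ℝ)| ≤ 1 := by norm_num [abs_le]
  have h := Real.exp_bound hx (n := 16) (by norm_num)
  rw [abs_le] at h
  obtain ⟨h1, h2⟩ := h
  simp only [Finset.sum_range_succ, Finset.sum_range_zero, Nat.factorial] at h1 h2
  norm_num [abs_of_neg, abs_of_pos] at h1 h2
  have l1 : (634447967948228181 / 1000000000000000000) ≤ exp (-91 / 200) := by norm_num; linarith
  have u1 : exp (-91 / 200) ≤ (634447967948228183 / 1000000000000000000) := by norm_num; linarith
  have e : exp (-91 / 50) = exp (-91 / 200) ^ 4 := by
    rw [← exp_nat_mul]; norm_num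
  rw [e]
  constructor
  · refine le_trans ?_ (pow_le_pow_left₀ (by norm_num) l1 4)
    norm_num
  · refine (pow_le_pow_left₀ (exp_pos _).le u1 4).trans ?_
    norm_num

theorem piece_0 {σ : ℝ} (h1 : (-3) ≤ σ) (h2 : σ ≤ (-2)) (z : ℝ) :
    Rf σ + Tf σ * (z * (σ - z)) ≤ (111 / 100) * exp (σ - (3 / 5) * z) := by
  refine main (sc := (-5 / 2)) (H := (1 / 2)) (z0c := (-17 / 15)) (b := (547 / 1000)) (rc := (-91 / 50)) (κ := (3359 / 5000)) (lo := (405064377 / 2500000000)) (hi := (1620257511 / 10000000000))
    (by norm_num) enc_0.1 enc_0.2 (by norm_num) (by norm_num) (by norm_num) (by norm_num) ?_ ?_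
    (by linarith) (by linarith) z
  · intro h a1 a2
    linarith
  · intro h a1 a2
    have hu : 0 ≤ (1 / 2) - h := by linarith
    have hv : 0 ≤ (1 / 2) + h := by linarith
    have key := bern9 hu hv
      (show (0 : ℝ) ≤ (20955188234771050868489508037182424186977602641011 / 62500000000000000000000000000000000000000000000000) by norm_num)
      (show (0 : ℝ) ≤ (170074172676615359506713037604337328643569585906967 / 62500000000000000000000000000000000000000000000000) by norm_num)
      (show (0 : ℝ) ≤ (121837867412176284502991291195336968516833257843 / 12500000000000000000000000000000000000000000000) by norm_num)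
      (show (0 : ℝ) ≤ (78974727309768005164585610521762024199527602208943 / 3906250000000000000000000000000000000000000000000) by norm_num)
      (show (0 : ℝ) ≤ (836084456838291190443266057266881126856882225754467 / 31250000000000000000000000000000000000000000000000) by norm_num)
      (show (0 : ℝ) ≤ (731839999008608403175580818349231697755218071764467 / 31250000000000000000000000000000000000000000000000) by norm_num)
      (show (0 : ℝ) ≤ (26476032870274418215051040579241992426873207774159 / 1953125000000000000000000000000000000000000000000) by norm_num)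
      (show (0 : ℝ) ≤ (62531948718048912599597417073367248382930394657 / 12500000000000000000000000000000000000000000000) by norm_num)
      (show (0 : ℝ) ≤ (66740837112027533300641445789142724505132327861967 / 62500000000000000000000000000000000000000000000000) by norm_num)
      (show (0 : ℝ) ≤ (6277774992898085767227329109654644088917341936011 / 62500000000000000000000000000000000000000000000000) by norm_num)
    refine key.trans_eq ?_
    unfold Tf Rf
    ring

theorem enc_1 : (3134861807 / 10000000000) ≤ exp (-29 / 25) ∧ exp (-29 / 25) ≤ (313486181 / 1000000000) := by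
  have hx : |((-29 / 100) : ℝ)| ≤ 1 := by norm_num [abs_le]
  have h := Real.exp_bound hx (n := 16) (by norm_num)
  rw [abs_le] at h
  obtain ⟨h1, h2⟩ := h
  simp only [Finset.sum_range_succ, Finset.sum_range_zero, Nat.factorial] at h1 h2
  norm_num [abs_of_neg, abs_of_pos] at h1 h2
  have l1 : (149652713515713043 / 200000000000000000) ≤ exp (-29 / 100) := by norm_num; linarith
  have u1 : exp (-29 / 100) ≤ (23383236486830163 / 31250000000000000) := by norm_num; linarith
  have e : exp (-29 / 25) = exp (-29 / 100) ^ 4 := by
    rw [← exp_nat_mul]; norm_num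
  rw [e]
  constructor
  · refine le_trans ?_ (pow_le_pow_left₀ (by norm_num) l1 4)
    norm_num
  · refine (pow_le_pow_left₀ (exp_pos _).le u1 4).trans ?_
    norm_num

theorem piece_1 {σ : ℝ} (h1 : (-2) ≤ σ) (h2 : σ ≤ (-1)) (z : ℝ) :
    Rf σ + Tf σ * (z * (σ - z)) ≤ (111 / 100) * exp (σ - (3 / 5) * z) := by
  refine main (sc := (-3 / 2)) (H := (1 / 2)) (z0c := (-17 / 30)) (b := (573 / 1000)) (rc := (-29 / 25)) (κ := (3281 / 5000)) (lo := (3134861807 / 10000000000)) (hi := (313486181 / 1000000000))
    (by norm_num) enc_1.1 enc_1.2 (by norm_num) (by norm_num) (by norm_num) (by norm_num) ?_ ?_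
    (by linarith) (by linarith) z
  · intro h a1 a2
    linarith
  · intro h a1 a2
    have hu : 0 ≤ (1 / 2) - h := by linarith
    have hv : 0 ≤ (1 / 2) + h := by linarith
    have key := bern9 hu hv
      (show (0 : ℝ) ≤ (125552713530607341451695253469584818216631633857 / 1250000000000000000000000000000000000000000000000) by norm_num)
      (show (0 : ℝ) ≤ (925245113865813528538618073817145903838367844679 / 1250000000000000000000000000000000000000000000000) by norm_num)
      (show (0 : ℝ) ≤ (14287532892232514251724684456823284204460279061 / 6000000000000000000000000000000000000000000000) by norm_num)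
      (show (0 : ℝ) ≤ (16429079390477125676186909826395336048843350225693 / 3750000000000000000000000000000000000000000000000) by norm_num)
      (show (0 : ℝ) ≤ (6336795529762868412714698166493594569070541008733 / 1250000000000000000000000000000000000000000000000) by norm_num)
      (show (0 : ℝ) ≤ (14315587175751121608086399348969165735291022043699 / 3750000000000000000000000000000000000000000000000) by norm_num)
      (show (0 : ℝ) ≤ (7001822442358325077116130637934512921847102951943 / 3750000000000000000000000000000000000000000000000) by norm_num)
      (show (0 : ℝ) ≤ (1142717920294107721871306469286916023779091813 / 2000000000000000000000000000000000000000000000) by norm_num)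
      (show (0 : ℝ) ≤ (186306143563995511638987146412884098260594453581 / 1875000000000000000000000000000000000000000000000) by norm_num)
      (show (0 : ℝ) ≤ (7047310612890430889550999276680262936810711799 / 937500000000000000000000000000000000000000000000) by norm_num)
    refine key.trans_eq ?_
    unfold Tf Rf
    ring

theorem enc_2 : (6004955787 / 10000000000) ≤ exp (-51 / 100) ∧ exp (-51 / 100) ≤ (600495579 / 1000000000) := by
  have hx : |((-51 / 200) : ℝ)| ≤ 1 := by norm_num [abs_le]
  have h := Real.exp_bound hx (n := 16) (by norm_num)
  rw [abs_le] at h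
  obtain ⟨h1, h2⟩ := h
  simp only [Finset.sum_range_succ, Finset.sum_range_zero, Nat.factorial] at h1 h2
  norm_num [abs_of_neg, abs_of_pos] at h1 h2
  have l1 : (24216140561283779 / 31250000000000000) ≤ exp (-51 / 200) := by norm_num; linarith
  have u1 : exp (-51 / 200) ≤ (774916497961080929 / 1000000000000000000) := by norm_num; linarith
  have e : exp (-51 / 100) = exp (-51 / 200) ^ 2 := by
    rw [← exp_nat_mul]; norm_num
  rw [e]
  constructor
  · refine le_trans ?_ (pow_le_pow_left₀ (by norm_num) l1 2)
    norm_num
  · refine (pow_le_pow_left₀ (exp_pos _).le u1 2).trans ?_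
    norm_num

theorem piece_2 {σ : ℝ} (h1 : (-1) ≤ σ) (h2 : σ ≤ 0) (z : ℝ) :
    Rf σ + Tf σ * (z * (σ - z)) ≤ (111 / 100) * exp (σ - (3 / 5) * z) := by
  refine main (sc := (-1 / 2)) (H := (1 / 2)) (z0c := (1 / 60)) (b := (153 / 250)) (rc := (-51 / 100)) (κ := (791 / 1250)) (lo := (6004955787 / 10000000000)) (hi := (600495579 / 1000000000))
    (by norm_num) enc_2.1 enc_2.2 (by norm_num) (by norm_num) (by norm_num) (by norm_num) ?_ ?_
    (by linarith) (by linarith) z
  · intro h a1 a2
    linarith
  · intro h a1 a2
    have hu : 0 ≤ (1 / 2) - h := by linarith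
    have hv : 0 ≤ (1 / 2) + h := by linarith
    have key := bern9 hu hv
      (show (0 : ℝ) ≤ (3435447690827216969090285653010599917425993 / 457763671875000000000000000000000000000000000) by norm_num)
      (show (0 : ℝ) ≤ (16496382560971980565141595255395474251812021 / 457763671875000000000000000000000000000000000) by norm_num)
      (show (0 : ℝ) ≤ (92659587037184873512231318617547061561 / 1430511474609375000000000000000000000000) by norm_num)
      (show (0 : ℝ) ≤ (1124115302301001363094953246830432157349081 / 19073486328125000000000000000000000000000000) by norm_num)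
      (show (0 : ℝ) ≤ (13927741919280767881644600446019032499292021 / 228881835937500000000000000000000000000000000) by norm_num)
      (show (0 : ℝ) ≤ (25929690744643552897368083201528866327847021 / 228881835937500000000000000000000000000000000) by norm_num)
      (show (0 : ℝ) ≤ (2737427988744758179643897566062789300640331 / 19073486328125000000000000000000000000000000) by norm_num)
      (show (0 : ℝ) ≤ (4426531199238303880669551960142541802023 / 45776367187500000000000000000000000000000) by norm_num)
      (show (0 : ℝ) ≤ (14961328523857890117606786801060236871502021 / 457763671875000000000000000000000000000000000) by norm_num)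
      (show (0 : ℝ) ≤ (2001679537545191012856503926960098593485993 / 457763671875000000000000000000000000000000000) by norm_num)
    refine key.trans_eq ?_
    unfold Tf Rf
    ring

theorem enc_3 : (11162780703 / 10000000000) ≤ exp (11 / 100) ∧ exp (11 / 100) ≤ (5581390353 / 5000000000) := by
  have hx : |((11 / 100) : ℝ)| ≤ 1 := by norm_num [abs_le]
  have h := Real.exp_bound hx (n := 16) (by norm_num)
  rw [abs_le] at h
  obtain ⟨h1, h2⟩ := h
  simp only [Finset.sum_range_succ, Finset.sum_range_zero, Nat.factorial] at h1 h2
  norm_num [abs_of_neg, abs_of_pos] at h1 h2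
  have l1 : (1116278070458871291 / 1000000000000000000) ≤ exp (11 / 100) := by norm_num; linarith
  have u1 : exp (11 / 100) ≤ (279069517614717823 / 250000000000000000) := by norm_num; linarith
  have e : exp (11 / 100) = exp (11 / 100) ^ 1 := by
    rw [← exp_nat_mul]; norm_num
  rw [e]
  constructor
  · refine le_trans ?_ (pow_le_pow_left₀ (by norm_num) l1 1)
    norm_num
  · refine (pow_le_pow_left₀ (exp_pos _).le u1 1).trans ?_
    norm_num

theorem piece_3 {σ : ℝ} (h1 : 0 ≤ σ) (h2 : σ ≤ 1) (z : ℝ) :
    Rf σ + Tf σ * (z * (σ - z)) ≤ (111 / 100) * exp (σ - (3 / 5) * z) := by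
  refine main (sc := (1 / 2)) (H := (1 / 2)) (z0c := (13 / 20)) (b := (83 / 125)) (rc := (11 / 100)) (κ := (376 / 625)) (lo := (11162780703 / 10000000000)) (hi := (5581390353 / 5000000000))
    (by norm_num) enc_3.1 enc_3.2 (by norm_num) (by norm_num) (by norm_num) (by norm_num) ?_ ?_
    (by linarith) (by linarith) z
  · intro h a1 a2
    linarith
  · intro h a1 a2
    have hu : 0 ≤ (1 / 2) - h := by linarith
    have hv : 0 ≤ (1 / 2) + h := by linarith
    have key := bern9 hu hv
      (show (0 : ℝ) ≤ (8034195077192887345491097767254234046187 / 1862645149230957031250000000000000000000000) by norm_num)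
      (show (0 : ℝ) ≤ (86344857472049132596364453043289177953939 / 1862645149230957031250000000000000000000000) by norm_num)
      (show (0 : ℝ) ≤ (154741872852567737838272942998591260051 / 745058059692382812500000000000000000000) by norm_num)
      (show (0 : ℝ) ≤ (237545817416571375780919378389129129842999 / 465661287307739257812500000000000000000000) by norm_num)
      (show (0 : ℝ) ≤ (702227147051671800586863216611586938295189 / 931322574615478515625000000000000000000000) by norm_num)
      (show (0 : ℝ) ≤ (645320726148302899852581720315855375205189 / 931322574615478515625000000000000000000000) by norm_num)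
      (show (0 : ℝ) ≤ (184929645073434074855110712269810116312999 / 465661287307739257812500000000000000000000) by norm_num)
      (show (0 : ℝ) ≤ (105069372180322456750730790547044793699 / 745058059692382812500000000000000000000) by norm_num)
      (show (0 : ℝ) ≤ (58041056088971215541658853435482053983939 / 1862645149230957031250000000000000000000000) by norm_num)
      (show (0 : ℝ) ≤ (7259169773182141973108359383617788016187 / 1862645149230957031250000000000000000000000) by norm_num)
    refine key.trans_eq ?_
    unfold Tf Rf
    ring

theorem enc_4 : (19937155331 / 10000000000) ≤ exp (69 / 100) ∧ exp (69 / 100) ≤ (9968577667 / 5000000000) := by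
  have hx : |((69 / 200) : ℝ)| ≤ 1 := by norm_num [abs_le]
  have h := Real.exp_bound hx (n := 16) (by norm_num)
  rw [abs_le] at h
  obtain ⟨h1, h2⟩ := h
  simp only [Finset.sum_range_succ, Finset.sum_range_zero, Nat.factorial] at h1 h2
  norm_num [abs_of_neg, abs_of_pos] at h1 h2
  have l1 : (56479596786706363 / 40000000000000000) ≤ exp (69 / 200) := by norm_num; linarith
  have u1 : exp (69 / 200) ≤ (352997479916914769 / 250000000000000000) := by norm_num; linarith
  have e : exp (69 / 100) = exp (69 / 200) ^ 2 := by
    rw [← exp_nat_mul]; norm_num
  rw [e]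
  constructor
  · refine le_trans ?_ (pow_le_pow_left₀ (by norm_num) l1 2)
    norm_num
  · refine (pow_le_pow_left₀ (exp_pos _).le u1 2).trans ?_
    norm_num

theorem piece_4 {σ : ℝ} (h1 : 1 ≤ σ) (h2 : σ ≤ 2) (z : ℝ) :
    Rf σ + Tf σ * (z * (σ - z)) ≤ (111 / 100) * exp (σ - (3 / 5) * z) := by
  refine main (sc := (3 / 2)) (H := (1 / 2)) (z0c := (27 / 20)) (b := (73 / 100)) (rc := (69 / 100)) (κ := (281 / 500)) (lo := (19937155331 / 10000000000)) (hi := (9968577667 / 5000000000))
    (by norm_num) enc_4.1 enc_4.2 (by norm_num) (by norm_num) (by norm_num) (by norm_num) ?_ ?_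
    (by linarith) (by linarith) z
  · intro h a1 a2
    linarith
  · intro h a1 a2
    have hu : 0 ≤ (1 / 2) - h := by linarith
    have hv : 0 ≤ (1 / 2) + h := by linarith
    have key := bern9 hu hv
      (show (0 : ℝ) ≤ (185713874709470025879741210374249090493227 / 46875000000000000000000000000000000000000000) by norm_num)
      (show (0 : ℝ) ≤ (5917474436782123750212264447852677547619207 / 140625000000000000000000000000000000000000000) by norm_num)
      (show (0 : ℝ) ≤ (254592207334455001994252069163855067792693 / 1125000000000000000000000000000000000000000) by norm_num)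
      (show (0 : ℝ) ≤ (112460841186418516286632498515998943372174073 / 140625000000000000000000000000000000000000000) by norm_num)
      (show (0 : ℝ) ≤ (270251644523393667109320837311509870183237039 / 140625000000000000000000000000000000000000000) by norm_num)
      (show (0 : ℝ) ≤ (435936268360736351692349683965513116688387539 / 140625000000000000000000000000000000000000000) by norm_num)
      (show (0 : ℝ) ≤ (460737347870867052293674038727972448906597323 / 140625000000000000000000000000000000000000000) by norm_num)
      (show (0 : ℝ) ≤ (2439035839559538596103517387375581397379807 / 1125000000000000000000000000000000000000000) by norm_num)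
      (show (0 : ℝ) ≤ (28588676998817775947418792548823123972399833 / 35156250000000000000000000000000000000000000) by norm_num)
      (show (0 : ℝ) ≤ (9265362533942100012808590568654070997171653 / 70312500000000000000000000000000000000000000) by norm_num)
    refine key.trans_eq ?_
    unfold Tf Rf
    ring

theorem enc_5 : (34212295361 / 10000000000) ≤ exp (123 / 100) ∧ exp (123 / 100) ≤ (8553073841 / 2500000000) := by
  have hx : |((123 / 400) : ℝ)| ≤ 1 := by norm_num [abs_le]
  have h := Real.exp_bound hx (n := 16) (by norm_num)
  rw [abs_le] at h
  obtain ⟨h1, h2⟩ := h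
  simp only [Finset.sum_range_succ, Finset.sum_range_zero, Nat.factorial] at h1 h2
  norm_num [abs_of_neg, abs_of_pos] at h1 h2
  have l1 : (272004161700392157 / 200000000000000000) ≤ exp (123 / 400) := by norm_num; linarith
  have u1 : exp (123 / 400) ≤ (680010404250980393 / 500000000000000000) := by norm_num; linarith
  have e : exp (123 / 100) = exp (123 / 400) ^ 4 := by
    rw [← exp_nat_mul]; norm_num
  rw [e]
  constructor
  · refine le_trans ?_ (pow_le_pow_left₀ (by norm_num) l1 4)
    norm_num
  · refine (pow_le_pow_left₀ (exp_pos _).le u1 4).trans ?_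
    norm_num

theorem piece_5 {σ : ℝ} (h1 : 2 ≤ σ) (h2 : σ ≤ 3) (z : ℝ) :
    Rf σ + Tf σ * (z * (σ - z)) ≤ (111 / 100) * exp (σ - (3 / 5) * z) := by
  refine main (sc := (5 / 2)) (H := (1 / 2)) (z0c := (127 / 60)) (b := (161 / 200)) (rc := (123 / 100)) (κ := (517 / 1000)) (lo := (34212295361 / 10000000000)) (hi := (8553073841 / 2500000000))
    (by norm_num) enc_5.1 enc_5.2 (by norm_num) (by norm_num) (by norm_num) (by norm_num) ?_ ?_
    (by linarith) (by linarith) z
  · intro h a1 a2
    linarith
  · intro h a1 a2
    have hu : 0 ≤ (1 / 2) - h := by linarith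
    have hv : 0 ≤ (1 / 2) + h := by linarith
    have key := bern9 hu hv
      (show (0 : ℝ) ≤ (2370651040322113099266475596074535415699075633 / 18000000000000000000000000000000000000000000000) by norm_num)
      (show (0 : ℝ) ≤ (28136404020175184198686088110186316444211587851 / 18000000000000000000000000000000000000000000000) by norm_num)
      (show (0 : ℝ) ≤ (1176585579312735347442039833878815011430197089 / 144000000000000000000000000000000000000000000) by norm_num)
      (show (0 : ℝ) ≤ (49450939365936678632023245506344993805828374021 / 2000000000000000000000000000000000000000000000) by norm_num)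
      (show (0 : ℝ) ≤ (859549116971501265179459095012903078061084762827 / 18000000000000000000000000000000000000000000000) by norm_num)
      (show (0 : ℝ) ≤ (1098918067693262979082508018347685085916698749327 / 18000000000000000000000000000000000000000000000) by norm_num)
      (show (0 : ℝ) ≤ (103353803011928028408571954196765804092396279271 / 2000000000000000000000000000000000000000000000) by norm_num)
      (show (0 : ℝ) ≤ (4021776023546051685506006745051976073600570411 / 144000000000000000000000000000000000000000000) by norm_num)
      (show (0 : ℝ) ≤ (19676434593025537548771229717959923290225001497 / 2250000000000000000000000000000000000000000000) by norm_num)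
      (show (0 : ℝ) ≤ (10876863196464485907301774667562765563818997629 / 9000000000000000000000000000000000000000000000) by norm_num)
    refine key.trans_eq ?_
    unfold Tf Rf
    ring

theorem enc_6 : (17571718951 / 2500000000) ≤ exp (39 / 20) ∧ exp (39 / 20) ≤ (70286875807 / 10000000000) := by
  have hx : |((39 / 80) : ℝ)| ≤ 1 := by norm_num [abs_le]
  have h := Real.exp_bound hx (n := 16) (by norm_num)
  rw [abs_le] at h
  obtain ⟨h1, h2⟩ := h
  simp only [Finset.sum_range_succ, Finset.sum_range_zero, Nat.factorial] at h1 h2
  norm_num [abs_of_neg, abs_of_pos] at h1 h2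
  have l1 : (1628240526145509829 / 1000000000000000000) ≤ exp (39 / 80) := by norm_num; linarith
  have u1 : exp (39 / 80) ≤ (1628240526145509831 / 1000000000000000000) := by norm_num; linarith
  have e : exp (39 / 20) = exp (39 / 80) ^ 4 := by
    rw [← exp_nat_mul]; norm_num
  rw [e]
  constructor
  · refine le_trans ?_ (pow_le_pow_left₀ (by norm_num) l1 4)
    norm_num
  · refine (pow_le_pow_left₀ (exp_pos _).le u1 4).trans ?_
    norm_num

theorem piece_6 {σ : ℝ} (h1 : 3 ≤ σ) (h2 : σ ≤ 5) (z : ℝ) :
    Rf σ + Tf σ * (z * (σ - z)) ≤ (111 / 100) * exp (σ - (3 / 5) * z) := by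
  refine main (sc := 4) (H := 1) (z0c := (41 / 12)) (b := (461 / 500)) (rc := (39 / 20)) (κ := (1117 / 2500)) (lo := (17571718951 / 2500000000)) (hi := (70286875807 / 10000000000))
    (by norm_num) enc_6.1 enc_6.2 (by norm_num) (by norm_num) (by norm_num) (by norm_num) ?_ ?_
    (by linarith) (by linarith) z
  · intro h a1 a2
    linarith
  · intro h a1 a2
    have hu : 0 ≤ 1 - h := by linarith
    have hv : 0 ≤ 1 + h := by linarith
    have key := bern9 hu hv
      (show (0 : ℝ) ≤ (164033245749400594282224550888543374603758903579 / 70312500000000000000000000000000000000000000000000) by norm_num)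
      (show (0 : ℝ) ≤ (2083250982695337995669905021840038841425154599263 / 70312500000000000000000000000000000000000000000000) by norm_num)
      (show (0 : ℝ) ≤ (575427148588962361169421663374567053012296119 / 3515625000000000000000000000000000000000000000) by norm_num)
      (show (0 : ℝ) ≤ (1531107910961908785464245968483133537379978483693 / 2929687500000000000000000000000000000000000000000) by norm_num)
      (show (0 : ℝ) ≤ (37393242302321687205918527842793163726656139719263 / 35156250000000000000000000000000000000000000000000) by norm_num)
      (show (0 : ℝ) ≤ (50314480158756657797191092982085471443680810789263 / 35156250000000000000000000000000000000000000000000) by norm_num)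
      (show (0 : ℝ) ≤ (3731837194419569269777061785200232982079556598693 / 2929687500000000000000000000000000000000000000000) by norm_num)
      (show (0 : ℝ) ≤ (2542136005926001889186333241520019183269156381 / 3515625000000000000000000000000000000000000000) by norm_num)
      (show (0 : ℝ) ≤ (16685579284716702599440720788814231236224360909263 / 70312500000000000000000000000000000000000000000000) by norm_num)
      (show (0 : ℝ) ≤ (2407147031301352318855408489907395014414932593579 / 70312500000000000000000000000000000000000000000000) by norm_num)
    refine key.trans_eq ?_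
    unfold Tf Rf
    ring

theorem enc_7 : (28592578197 / 2000000000) ≤ exp (133 / 50) ∧ exp (133 / 50) ≤ (35740722747 / 2500000000) := by
  have hx : |((133 / 400) : ℝ)| ≤ 1 := by norm_num [abs_le]
  have h := Real.exp_bound hx (n := 16) (by norm_num)
  rw [abs_le] at h
  obtain ⟨h1, h2⟩ := h
  simp only [Finset.sum_range_succ, Finset.sum_range_zero, Nat.factorial] at h1 h2
  norm_num [abs_of_neg, abs_of_pos] at h1 h2
  have l1 : (697224949592459539 / 500000000000000000) ≤ exp (133 / 400) := by norm_num; linarith
  have u1 : exp (133 / 400) ≤ (1394449899184919079 / 1000000000000000000) := by norm_num; linarith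
  have e : exp (133 / 50) = exp (133 / 400) ^ 8 := by
    rw [← exp_nat_mul]; norm_num
  rw [e]
  constructor
  · refine le_trans ?_ (pow_le_pow_left₀ (by norm_num) l1 8)
    norm_num
  · refine (pow_le_pow_left₀ (exp_pos _).le u1 8).trans ?_
    norm_num

theorem piece_7 {σ : ℝ} (h1 : 5 ≤ σ) (h2 : σ ≤ (13 / 2)) (z : ℝ) :
    Rf σ + Tf σ * (z * (σ - z)) ≤ (111 / 100) * exp (σ - (3 / 5) * z) := by
  refine main (sc := (23 / 4)) (H := (3 / 4)) (z0c := (103 / 20)) (b := (523 / 500)) (rc := (133 / 50)) (κ := (931 / 2500)) (lo := (28592578197 / 2000000000)) (hi := (35740722747 / 2500000000))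
    (by norm_num) enc_7.1 enc_7.2 (by norm_num) (by norm_num) (by norm_num) (by norm_num) ?_ ?_
    (by linarith) (by linarith) z
  · intro h a1 a2
    linarith
  · intro h a1 a2
    have hu : 0 ≤ (3 / 4) - h := by linarith
    have hv : 0 ≤ (3 / 4) + h := by linarith
    have key := bern9 hu hv
      (show (0 : ℝ) ≤ (274480385584594193123010045451372161826666323882139 / 600677490234375000000000000000000000000000000000000) by norm_num)
      (show (0 : ℝ) ≤ (1933979036032838369323092155266690323846411142110097 / 400451660156250000000000000000000000000000000000000) by norm_num)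
      (show (0 : ℝ) ≤ (58005709758395693170658457266116209922595547056483 / 2562890625000000000000000000000000000000000000000) by norm_num)
      (show (0 : ℝ) ≤ (407033159152599454016507754256306331889202688976749 / 6591796875000000000000000000000000000000000000000) by norm_num)
      (show (0 : ℝ) ≤ (173144485851404183401201709560559414251805945486980151 / 1601806640625000000000000000000000000000000000000000) by norm_num)
      (show (0 : ℝ) ≤ (201687652054591548969027915480453477133692306769057651 / 1601806640625000000000000000000000000000000000000000) by norm_num)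
      (show (0 : ℝ) ≤ (156332309986146361495154265725947497125139305384141257 / 1601806640625000000000000000000000000000000000000000) by norm_num)
      (show (0 : ℝ) ≤ (124399410621507089059155789059735785804800667068517 / 2562890625000000000000000000000000000000000000000) by norm_num)
      (show (0 : ℝ) ≤ (22509663113289424975407079753932724022044108279891013 / 1601806640625000000000000000000000000000000000000000) by norm_num)
      (show (0 : ℝ) ≤ (8669149313611748220794476536689593285088076194986487 / 4805419921875000000000000000000000000000000000000000) by norm_num)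
    refine key.trans_eq ?_
    unfold Tf Rf
    ring

theorem enc_8 : (240467535519 / 10000000000) ≤ exp (159 / 50) ∧ exp (159 / 50) ≤ (120233767761 / 5000000000) := by
  have hx : |((159 / 400) : ℝ)| ≤ 1 := by norm_num [abs_le]
  have h := Real.exp_bound hx (n := 16) (by norm_num)
  rw [abs_le] at h
  obtain ⟨h1, h2⟩ := h
  simp only [Finset.sum_range_succ, Finset.sum_range_zero, Nat.factorial] at h1 h2
  norm_num [abs_of_neg, abs_of_pos] at h1 h2
  have l1 : (1488099793966814007 / 1000000000000000000) ≤ exp (159 / 400) := by norm_num; linarith
  have u1 : exp (159 / 400) ≤ (186012474245851751 / 125000000000000000) := by norm_num; linarith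
  have e : exp (159 / 50) = exp (159 / 400) ^ 8 := by
    rw [← exp_nat_mul]; norm_num
  rw [e]
  constructor
  · refine le_trans ?_ (pow_le_pow_left₀ (by norm_num) l1 8)
    norm_num
  · refine (pow_le_pow_left₀ (exp_pos _).le u1 8).trans ?_
    norm_num

theorem piece_8 {σ : ℝ} (h1 : (13 / 2) ≤ σ) (h2 : σ ≤ 8) (z : ℝ) :
    Rf σ + Tf σ * (z * (σ - z)) ≤ (111 / 100) * exp (σ - (3 / 5) * z) := by
  refine main (sc := (29 / 4)) (H := (3 / 4)) (z0c := (407 / 60)) (b := (1133 / 1000)) (rc := (159 / 50)) (κ := (1601 / 5000)) (lo := (240467535519 / 10000000000)) (hi := (120233767761 / 5000000000))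
    (by norm_num) enc_8.1 enc_8.2 (by norm_num) (by norm_num) (by norm_num) (by norm_num) ?_ ?_
    (by linarith) (by linarith) z
  · intro h a1 a2
    linarith
  · intro h a1 a2
    have hu : 0 ≤ (3 / 4) - h := by linarith
    have hv : 0 ≤ (3 / 4) + h := by linarith
    have key := bern9 hu hv
      (show (0 : ℝ) ≤ (1109625622220974904301735348870297313861338218925991369 / 615093750000000000000000000000000000000000000000000000) by norm_num)
      (show (0 : ℝ) ≤ (3777550311635743072789572748211052074545279820485836131 / 205031250000000000000000000000000000000000000000000000) by norm_num)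
      (show (0 : ℝ) ≤ (27398190638568689677044979723092297429387627365914027 / 328050000000000000000000000000000000000000000000000) by norm_num)
      (show (0 : ℝ) ≤ (5025018928607281273443688412865668344074509431590457651 / 22781250000000000000000000000000000000000000000000000) by norm_num)
      (show (0 : ℝ) ≤ (76694302575490647553470829009387728596853186368992341637 / 205031250000000000000000000000000000000000000000000000) by norm_num)
      (show (0 : ℝ) ≤ (86606969755416558830730202187824132903343260128057001637 / 205031250000000000000000000000000000000000000000000000) by norm_num)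
      (show (0 : ℝ) ≤ (65125072025658180366106354103445401135965349405062277609 / 205031250000000000000000000000000000000000000000000000) by norm_num)
      (show (0 : ℝ) ≤ (50310796718102557936325359540130680688539602053598473 / 328050000000000000000000000000000000000000000000000) by norm_num)
      (show (0 : ℝ) ≤ (2211277021860862602426308842164863690562461152050529189 / 51257812500000000000000000000000000000000000000000000) by norm_num)
      (show (0 : ℝ) ≤ (828216405821814318006902213237566251535647743536748311 / 153773437500000000000000000000000000000000000000000000) by norm_num)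
    refine key.trans_eq ?_
    unfold Tf Rf
    ring

theorem enc_9 : (404473043599 / 10000000000) ≤ exp (37 / 10) ∧ exp (37 / 10) ≤ (404473043603 / 10000000000) := by
  have hx : |((37 / 80) : ℝ)| ≤ 1 := by norm_num [abs_le]
  have h := Real.exp_bound hx (n := 16) (by norm_num)
  rw [abs_le] at h
  obtain ⟨h1, h2⟩ := h
  simp only [Finset.sum_range_succ, Finset.sum_range_zero, Nat.factorial] at h1 h2
  norm_num [abs_of_neg, abs_of_pos] at h1 h2
  have l1 : (158803912431594329 / 100000000000000000) ≤ exp (37 / 80) := by norm_num; linarith
  have u1 : exp (37 / 80) ≤ (397009781078985823 / 250000000000000000) := by norm_num; linarith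
  have e : exp (37 / 10) = exp (37 / 80) ^ 8 := by
    rw [← exp_nat_mul]; norm_num
  rw [e]
  constructor
  · refine le_trans ?_ (pow_le_pow_left₀ (by norm_num) l1 8)
    norm_num
  · refine (pow_le_pow_left₀ (exp_pos _).le u1 8).trans ?_
    norm_num

theorem piece_9 {σ : ℝ} (h1 : 8 ≤ σ) (h2 : σ ≤ 10) (z : ℝ) :
    Rf σ + Tf σ * (z * (σ - z)) ≤ (111 / 100) * exp (σ - (3 / 5) * z) := by
  refine main (sc := 9) (H := 1) (z0c := (53 / 6)) (b := (303 / 250)) (rc := (37 / 10)) (κ := (341 / 1250)) (lo := (404473043599 / 10000000000)) (hi := (404473043603 / 10000000000))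
    (by norm_num) enc_9.1 enc_9.2 (by norm_num) (by norm_num) (by norm_num) (by norm_num) ?_ ?_
    (by linarith) (by linarith) z
  · intro h a1 a2
    linarith
  · intro h a1 a2
    have hu : 0 ≤ 1 - h := by linarith
    have hv : 0 ≤ 1 + h := by linarith
    have key := bern9 hu hv
      (show (0 : ℝ) ≤ (148043820286557929198670808895141208942626303657 / 366210937500000000000000000000000000000000000000) by norm_num)
      (show (0 : ℝ) ≤ (509537655642726763196558166535419587741229281343 / 122070312500000000000000000000000000000000000000) by norm_num)
      (show (0 : ℝ) ≤ (43771955329622078982016859643969580380567439 / 2288818359375000000000000000000000000000000) by norm_num)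
      (show (0 : ℝ) ≤ (2336355417911286781962177431009926051112460396157 / 45776367187500000000000000000000000000000000000) by norm_num)
      (show (0 : ℝ) ≤ (5337182969270166368733570042004214929820228576343 / 61035156250000000000000000000000000000000000000) by norm_num)
      (show (0 : ℝ) ≤ (18263976369878712059553199434078258353162961714029 / 183105468750000000000000000000000000000000000000) by norm_num)
      (show (0 : ℝ) ≤ (3467563943973367660686802682152950863075517643657 / 45776367187500000000000000000000000000000000000) by norm_num)
      (show (0 : ℝ) ≤ (225406016475108128936358616629532224451977871 / 6103515625000000000000000000000000000000000) by norm_num)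
      (show (0 : ℝ) ≤ (3840487152654865004359100427732201166132910849029 / 366210937500000000000000000000000000000000000000) by norm_num)
      (show (0 : ℝ) ≤ (161294328578109943494154295317024478313397766219 / 122070312500000000000000000000000000000000000000) by norm_num)
    refine key.trans_eq ?_
    unfold Tf Rf
    ring

theorem enc_10 : (666863310407 / 10000000000) ≤ exp (21 / 5) ∧ exp (21 / 5) ≤ (666863310411 / 10000000000) := by
  have hx : |((21 / 80) : ℝ)| ≤ 1 := by norm_num [abs_le]
  have h := Real.exp_bound hx (n := 16) (by norm_num)
  rw [abs_le] at h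
  obtain ⟨h1, h2⟩ := h
  simp only [Finset.sum_range_succ, Finset.sum_range_zero, Nat.factorial] at h1 h2
  norm_num [abs_of_neg, abs_of_pos] at h1 h2
  have l1 : (1300176468168491103 / 1000000000000000000) ≤ exp (21 / 80) := by norm_num; linarith
  have u1 : exp (21 / 80) ≤ (40630514630265347 / 31250000000000000) := by norm_num; linarith
  have e : exp (21 / 5) = exp (21 / 80) ^ 16 := by
    rw [← exp_nat_mul]; norm_num
  rw [e]
  constructor
  · refine le_trans ?_ (pow_le_pow_left₀ (by norm_num) l1 16)
    norm_num
  · refine (pow_le_pow_left₀ (exp_pos _).le u1 16).trans ?_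
    norm_num

theorem piece_10 {σ : ℝ} (h1 : 10 ≤ σ) (h2 : σ ≤ 12) (z : ℝ) :
    Rf σ + Tf σ * (z * (σ - z)) ≤ (111 / 100) * exp (σ - (3 / 5) * z) := by
  refine main (sc := 11) (H := 1) (z0c := (34 / 3)) (b := (1281 / 1000)) (rc := (21 / 5)) (κ := (1157 / 5000)) (lo := (666863310407 / 10000000000)) (hi := (666863310411 / 10000000000))
    (by norm_num) enc_10.1 enc_10.2 (by norm_num) (by norm_num) (by norm_num) (by norm_num) ?_ ?_
    (by linarith) (by linarith) z
  · intro h a1 a2
    linarith
  · intro h a1 a2
    have hu : 0 ≤ 1 - h := by linarith
    have hv : 0 ≤ 1 + h := by linarith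
    have key := bern9 hu hv
      (show (0 : ℝ) ≤ (660787931281983526444169933672606061417621178697279 / 500000000000000000000000000000000000000000000000000) by norm_num)
      (show (0 : ℝ) ≤ (19957130754122751445391538097772314284738292345259489 / 1500000000000000000000000000000000000000000000000000) by norm_num)
      (show (0 : ℝ) ≤ (2973531609095941668068258347683506152544747554181 / 50000000000000000000000000000000000000000000000) by norm_num)
      (show (0 : ℝ) ≤ (29047757792644144641928561318305115104644104691145587 / 187500000000000000000000000000000000000000000000000) by norm_num)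
      (show (0 : ℝ) ≤ (194404394798268899740634232571407141844947921711079489 / 750000000000000000000000000000000000000000000000000) by norm_num)
      (show (0 : ℝ) ≤ (72217577805824794815108784520361089348883957057658163 / 250000000000000000000000000000000000000000000000000) by norm_num)
      (show (0 : ℝ) ≤ (40205528251769534758282527051096743980945000694378087 / 187500000000000000000000000000000000000000000000000) by norm_num)
      (show (0 : ℝ) ≤ (15334730077559153639200398266267785053228029999957 / 150000000000000000000000000000000000000000000000) by norm_num)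
      (show (0 : ℝ) ≤ (14202115450114963488216603882953395192189691567098163 / 500000000000000000000000000000000000000000000000000) by norm_num)
      (show (0 : ℝ) ≤ (5255712855985204671736881998970954377904613940056837 / 1500000000000000000000000000000000000000000000000000) by norm_num)
    refine key.trans_eq ?_
    unfold Tf Rf
    ring

theorem enc_11 : (309912726949 / 2500000000) ≤ exp (241 / 50) ∧ exp (241 / 50) ≤ (1239650907801 / 10000000000) := by
  have hx : |((241 / 800) : ℝ)| ≤ 1 := by norm_num [abs_le]
  have h := Real.exp_bound hx (n := 16) (by norm_num)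
  rw [abs_le] at h
  obtain ⟨h1, h2⟩ := h
  simp only [Finset.sum_range_succ, Finset.sum_range_zero, Nat.factorial] at h1 h2
  norm_num [abs_of_neg, abs_of_pos] at h1 h2
  have l1 : (1351547186102211039 / 1000000000000000000) ≤ exp (241 / 800) := by norm_num; linarith
  have u1 : exp (241 / 800) ≤ (8447169913138819 / 6250000000000000) := by norm_num; linarith
  have e : exp (241 / 50) = exp (241 / 800) ^ 16 := by
    rw [← exp_nat_mul]; norm_num
  rw [e]
  constructor
  · refine le_trans ?_ (pow_le_pow_left₀ (by norm_num) l1 16)
    norm_num
  · refine (pow_le_pow_left₀ (exp_pos _).le u1 16).trans ?_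
    norm_num

theorem piece_11 {σ : ℝ} (h1 : 12 ≤ σ) (h2 : σ ≤ 16) (z : ℝ) :
    Rf σ + Tf σ * (z * (σ - z)) ≤ (111 / 100) * exp (σ - (3 / 5) * z) := by
  refine main (sc := 14) (H := 2) (z0c := (153 / 10)) (b := (169 / 125)) (rc := (241 / 50)) (κ := (118 / 625)) (lo := (309912726949 / 2500000000)) (hi := (1239650907801 / 10000000000))
    (by norm_num) enc_11.1 enc_11.2 (by norm_num) (by norm_num) (by norm_num) (by norm_num) ?_ ?_
    (by linarith) (by linarith) z
  · intro h a1 a2
    linarith
  · intro h a1 a2
    have hu : 0 ≤ 2 - h := by linarith
    have hv : 0 ≤ 2 + h := by linarith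
    have key := bern9 hu hv
      (show (0 : ℝ) ≤ (120181979184727154382853901611396227173188434323 / 17578125000000000000000000000000000000000000000000) by norm_num)
      (show (0 : ℝ) ≤ (1298179018428004130007983406601257290380552969531 / 17578125000000000000000000000000000000000000000000) by norm_num)
      (show (0 : ℝ) ≤ (2484747309665873847115466388776889991445804507 / 7031250000000000000000000000000000000000000000) by norm_num)
      (show (0 : ℝ) ≤ (4324690851112351296582961465937521830925110154271 / 4394531250000000000000000000000000000000000000000) by norm_num)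
      (show (0 : ℝ) ≤ (15450576214756228651735518290254298386422508420781 / 8789062500000000000000000000000000000000000000000) by norm_num)
      (show (0 : ℝ) ≤ (18360751091895107514625726750478452032897043290781 / 8789062500000000000000000000000000000000000000000) by norm_num)
      (show (0 : ℝ) ≤ (7257845820263235541930679620994897768108870944271 / 4394531250000000000000000000000000000000000000000) by norm_num)
      (show (0 : ℝ) ≤ (5888921161333805096873690283704777621420899243 / 7031250000000000000000000000000000000000000000) by norm_num)
      (show (0 : ℝ) ≤ (4343988311516783495685939217664143317767779679531 / 17578125000000000000000000000000000000000000000000) by norm_num)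
      (show (0 : ℝ) ≤ (189274499563306547343746792088859835703897241441 / 5859375000000000000000000000000000000000000000000) by norm_num)
    refine key.trans_eq ?_
    unfold Tf Rf
    ring

theorem enc_12 : (75705377143 / 312500000) ≤ exp (549 / 100) ∧ exp (549 / 100) ≤ (2422572068583 / 10000000000) := by
  have hx : |((549 / 1600) : ℝ)| ≤ 1 := by norm_num [abs_le]
  have h := Real.exp_bound hx (n := 16) (by norm_num)
  rw [abs_le] at h
  obtain ⟨h1, h2⟩ := h
  simp only [Finset.sum_range_succ, Finset.sum_range_zero, Nat.factorial] at h1 h2
  norm_num [abs_of_neg, abs_of_pos] at h1 h2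
  have l1 : (1409344919031281303 / 1000000000000000000) ≤ exp (549 / 1600) := by norm_num; linarith
  have u1 : exp (549 / 1600) ≤ (176168114878910163 / 125000000000000000) := by norm_num; linarith
  have e : exp (549 / 100) = exp (549 / 1600) ^ 16 := by
    rw [← exp_nat_mul]; norm_num
  rw [e]
  constructor
  · refine le_trans ?_ (pow_le_pow_left₀ (by norm_num) l1 16)
    norm_num
  · refine (pow_le_pow_left₀ (exp_pos _).le u1 16).trans ?_
    norm_num

theorem piece_12 {σ : ℝ} (h1 : 16 ≤ σ) (h2 : σ ≤ 20) (z : ℝ) :
    Rf σ + Tf σ * (z * (σ - z)) ≤ (111 / 100) * exp (σ - (3 / 5) * z) := by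
  refine main (sc := 18) (H := 2) (z0c := (417 / 20)) (b := (177 / 125)) (rc := (549 / 100)) (κ := (94 / 625)) (lo := (75705377143 / 312500000)) (hi := (2422572068583 / 10000000000))
    (by norm_num) enc_12.1 enc_12.2 (by norm_num) (by norm_num) (by norm_num) (by norm_num) ?_ ?_
    (by linarith) (by linarith) z
  · intro h a1 a2
    linarith
  · intro h a1 a2
    have hu : 0 ≤ 2 - h := by linarith
    have hv : 0 ≤ 2 + h := by linarith
    have key := bern9 hu hv
      (show (0 : ℝ) ≤ (189360482615875379352268728976592140093194881681 / 5859375000000000000000000000000000000000000000000) by norm_num)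
      (show (0 : ℝ) ≤ (5885378278725344789828309521179159661568010297371 / 17578125000000000000000000000000000000000000000000) by norm_num)
      (show (0 : ℝ) ≤ (10822142031595451447990660715848176829819151739 / 7031250000000000000000000000000000000000000000) by norm_num)
      (show (0 : ℝ) ≤ (18112991343398165530880970940771503983942404595711 / 4394531250000000000000000000000000000000000000000) by norm_num)
      (show (0 : ℝ) ≤ (62281815009668485629687497372475845902640567668621 / 8789062500000000000000000000000000000000000000000) by norm_num)
      (show (0 : ℝ) ≤ (71293834358875523988819693000936674800134004658621 / 8789062500000000000000000000000000000000000000000) by norm_num)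
      (show (0 : ℝ) ≤ (27168318249665150592622981998023072343423069425711 / 4394531250000000000000000000000000000000000000000) by norm_num)
      (show (0 : ℝ) ≤ (21269472980246376457644725028859513631143872011 / 7031250000000000000000000000000000000000000000) by norm_num)
      (show (0 : ℝ) ≤ (15154662817991800568899380844376410263900382967371 / 17578125000000000000000000000000000000000000000000) by norm_num)
      (show (0 : ℝ) ≤ (1916305788168179214595740338472305396208421975043 / 17578125000000000000000000000000000000000000000000) by norm_num)
    refine key.trans_eq ?_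
    unfold Tf Rf
    ring

theorem enc_13 : (528477377877 / 1000000000) ≤ exp (627 / 100) ∧ exp (627 / 100) ≤ (165149180587 / 312500000) := by
  have hx : |((627 / 1600) : ℝ)| ≤ 1 := by norm_num [abs_le]
  have h := Real.exp_bound hx (n := 16) (by norm_num)
  rw [abs_le] at h
  obtain ⟨h1, h2⟩ := h
  simp only [Finset.sum_range_succ, Finset.sum_range_zero, Nat.factorial] at h1 h2
  norm_num [abs_of_neg, abs_of_pos] at h1 h2
  have l1 : (1479752730749894749 / 1000000000000000000) ≤ exp (627 / 1600) := by norm_num; linarith
  have u1 : exp (627 / 1600) ≤ (5919010922999579 / 4000000000000000) := by norm_num; linarith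
  have e : exp (627 / 100) = exp (627 / 1600) ^ 16 := by
    rw [← exp_nat_mul]; norm_num
  rw [e]
  constructor
  · refine le_trans ?_ (pow_le_pow_left₀ (by norm_num) l1 16)
    norm_num
  · refine (pow_le_pow_left₀ (exp_pos _).le u1 16).trans ?_
    norm_num

theorem piece_13 {σ : ℝ} (h1 : 20 ≤ σ) (h2 : σ ≤ 28) (z : ℝ) :
    Rf σ + Tf σ * (z * (σ - z)) ≤ (111 / 100) * exp (σ - (3 / 5) * z) := by
  refine main (sc := 24) (H := 4) (z0c := (591 / 20)) (b := (1473 / 1000)) (rc := (627 / 100)) (κ := (581 / 5000)) (lo := (528477377877 / 1000000000)) (hi := (165149180587 / 312500000))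
    (by norm_num) enc_13.1 enc_13.2 (by norm_num) (by norm_num) (by norm_num) (by norm_num) ?_ ?_
    (by linarith) (by linarith) z
  · intro h a1 a2
    linarith
  · intro h a1 a2
    have hu : 0 ≤ 4 - h := by linarith
    have hv : 0 ≤ 4 + h := by linarith
    have key := bern9 hu hv
      (show (0 : ℝ) ≤ (424898360891054990796331665891462527294976447971 / 2000000000000000000000000000000000000000000000000000) by norm_num)
      (show (0 : ℝ) ≤ (4768235093339978910683704202434251063705076883587 / 2000000000000000000000000000000000000000000000000000) by norm_num)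
      (show (0 : ℝ) ≤ (2363636452682623283874272964305057271446484067 / 200000000000000000000000000000000000000000000000) by norm_num)
      (show (0 : ℝ) ≤ (8517811770881519697233363204280194267370217469221 / 250000000000000000000000000000000000000000000000000) by norm_num)
      (show (0 : ℝ) ≤ (62960309894596725072288398892567666704090465901087 / 1000000000000000000000000000000000000000000000000000) by norm_num)
      (show (0 : ℝ) ≤ (77337033966187636054193346633283418095955203468587 / 1000000000000000000000000000000000000000000000000000) by norm_num)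
      (show (0 : ℝ) ≤ (15789092302738612520430782781450404739347813574221 / 250000000000000000000000000000000000000000000000000) by norm_num)
      (show (0 : ℝ) ≤ (6611823684203666525323435963156569016783165933 / 200000000000000000000000000000000000000000000000) by norm_num)
      (show (0 : ℝ) ≤ (20113558843133660512290075804189389021123142486087 / 2000000000000000000000000000000000000000000000000000) by norm_num)
      (show (0 : ℝ) ≤ (2705047552016466246782400740321672851744717095471 / 2000000000000000000000000000000000000000000000000000) by norm_num)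
    refine key.trans_eq ?_
    unfold Tf Rf
    ring

theorem enc_14 : (5939842592539 / 5000000000) ≤ exp (177 / 25) ∧ exp (177 / 25) ≤ (742480324069 / 625000000) := by
  have hx : |((177 / 400) : ℝ)| ≤ 1 := by norm_num [abs_le]
  have h := Real.exp_bound hx (n := 16) (by norm_num)
  rw [abs_le] at h
  obtain ⟨h1, h2⟩ := h
  simp only [Finset.sum_range_succ, Finset.sum_range_zero, Nat.factorial] at h1 h2
  norm_num [abs_of_neg, abs_of_pos] at h1 h2
  have l1 : (389148460703427267 / 250000000000000000) ≤ exp (177 / 400) := by norm_num; linarith
  have u1 : exp (177 / 400) ≤ (1556593842813709069 / 1000000000000000000) := by norm_num; linarith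
  have e : exp (177 / 25) = exp (177 / 400) ^ 16 := by
    rw [← exp_nat_mul]; norm_num
  rw [e]
  constructor
  · refine le_trans ?_ (pow_le_pow_left₀ (by norm_num) l1 16)
    norm_num
  · refine (pow_le_pow_left₀ (exp_pos _).le u1 16).trans ?_
    norm_num

theorem piece_14 {σ : ℝ} (h1 : 28 ≤ σ) (h2 : σ ≤ 36) (z : ℝ) :
    Rf σ + Tf σ * (z * (σ - z)) ≤ (111 / 100) * exp (σ - (3 / 5) * z) := by
  refine main (sc := 32) (H := 4) (z0c := (623 / 15)) (b := (1519 / 1000)) (rc := (177 / 25)) (κ := (443 / 5000)) (lo := (5939842592539 / 5000000000)) (hi := (742480324069 / 625000000))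
    (by norm_num) enc_14.1 enc_14.2 (by norm_num) (by norm_num) (by norm_num) (by norm_num) ?_ ?_
    (by linarith) (by linarith) z
  · intro h a1 a2
    linarith
  · intro h a1 a2
    have hu : 0 ≤ 4 - h := by linarith
    have hv : 0 ≤ 4 + h := by linarith
    have key := bern9 hu hv
      (show (0 : ℝ) ≤ (1353345354679957278943176837867415104223663289037 / 1000000000000000000000000000000000000000000000000000) by norm_num)
      (show (0 : ℝ) ≤ (14325998186664248649025581025935311877112977936639 / 1000000000000000000000000000000000000000000000000000) by norm_num)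
      (show (0 : ℝ) ≤ (40343641352834279485377396320706972094266411823 / 600000000000000000000000000000000000000000000000) by norm_num)
      (show (0 : ℝ) ≤ (8613669641357346332429223173321854124825153504717 / 46875000000000000000000000000000000000000000000000) by norm_num)
      (show (0 : ℝ) ≤ (161137261708380551760590339458619241486579781200389 / 500000000000000000000000000000000000000000000000000) by norm_num)
      (show (0 : ℝ) ≤ (564230462261176073682801309244311604571254520242417 / 1500000000000000000000000000000000000000000000000000) by norm_num)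
      (show (0 : ℝ) ≤ (13696479191396401588802697532299297681609608887217 / 46875000000000000000000000000000000000000000000000) by norm_num)
      (show (0 : ℝ) ≤ (29129217528880386501423645458247833661156506059 / 200000000000000000000000000000000000000000000000) by norm_num)
      (show (0 : ℝ) ≤ (126783560357898839238546155224263554031896575033667 / 3000000000000000000000000000000000000000000000000000) by norm_num)
      (show (0 : ℝ) ≤ (16307934374745715109570999689796025961601330518361 / 3000000000000000000000000000000000000000000000000000) by norm_num)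
    refine key.trans_eq ?_
    unfold Tf Rf
    ring

theorem enc_15 : (25657343168321 / 10000000000) ≤ exp (157 / 20) ∧ exp (157 / 20) ≤ (205258745347 / 80000000) := by
  have hx : |((157 / 320) : ℝ)| ≤ 1 := by norm_num [abs_le]
  have h := Real.exp_bound hx (n := 16) (by norm_num)
  rw [abs_le] at h
  obtain ⟨h1, h2⟩ := h
  simp only [Finset.sum_range_succ, Finset.sum_range_zero, Nat.factorial] at h1 h2
  norm_num [abs_of_neg, abs_of_pos] at h1 h2
  have l1 : (1633336736471042287 / 1000000000000000000) ≤ exp (157 / 320) := by norm_num; linarith
  have u1 : exp (157 / 320) ≤ (1633336736471042289 / 1000000000000000000) := by norm_num; linarith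
  have e : exp (157 / 20) = exp (157 / 320) ^ 16 := by
    rw [← exp_nat_mul]; norm_num
  rw [e]
  constructor
  · refine le_trans ?_ (pow_le_pow_left₀ (by norm_num) l1 16)
    norm_num
  · refine (pow_le_pow_left₀ (exp_pos _).le u1 16).trans ?_
    norm_num

theorem piece_15 {σ : ℝ} (h1 : 36 ≤ σ) (h2 : σ ≤ 48) (z : ℝ) :
    Rf σ + Tf σ * (z * (σ - z)) ≤ (111 / 100) * exp (σ - (3 / 5) * z) := by
  refine main (sc := 42) (H := 6) (z0c := (683 / 12)) (b := (194 / 125)) (rc := (157 / 20)) (κ := (43 / 625)) (lo := (25657343168321 / 10000000000)) (hi := (205258745347 / 80000000))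
    (by norm_num) enc_15.1 enc_15.2 (by norm_num) (by norm_num) (by norm_num) (by norm_num) ?_ ?_
    (by linarith) (by linarith) z
  · intro h a1 a2
    linarith
  · intro h a1 a2
    have hu : 0 ≤ 6 - h := by linarith
    have hv : 0 ≤ 6 + h := by linarith
    have key := bern9 hu hv
      (show (0 : ℝ) ≤ (347647577899278465522210962239245037095514007 / 2460375000000000000000000000000000000000000000000) by norm_num)
      (show (0 : ℝ) ≤ (1258891978185950908811847318976731243031858733 / 820125000000000000000000000000000000000000000000) by norm_num)
      (show (0 : ℝ) ≤ (302735879624069952665208294597092495451165593 / 41006250000000000000000000000000000000000000000) by norm_num)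
      (show (0 : ℝ) ≤ (4236402762370560131136304657097553241245896593 / 205031250000000000000000000000000000000000000000) by norm_num)
      (show (0 : ℝ) ≤ (15208143378574651304075807435526131188089417683 / 410062500000000000000000000000000000000000000000) by norm_num)
      (show (0 : ℝ) ≤ (18155443347446632190784778287414109981084706443 / 410062500000000000000000000000000000000000000000) by norm_num)
      (show (0 : ℝ) ≤ (800873410839331587572354454659668557307996417 / 22781250000000000000000000000000000000000000000) by norm_num)
      (show (0 : ℝ) ≤ (734013961778674456549661152847787691832499937 / 41006250000000000000000000000000000000000000000) by norm_num)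
      (show (0 : ℝ) ≤ (4347171669763176072964272184715417011758447973 / 820125000000000000000000000000000000000000000000) by norm_num)
      (show (0 : ℝ) ≤ (1709469770163718707802076361503568237254517167 / 2460375000000000000000000000000000000000000000000) by norm_num)
    refine key.trans_eq ?_
    unfold Tf Rf
    ring

theorem enc_16 : (52711297901887 / 10000000000) ≤ exp (857 / 100) ∧ exp (857 / 100) ≤ (10542259580399 / 2000000000) := by
  have hx : |((857 / 3200) : ℝ)| ≤ 1 := by norm_num [abs_le]
  have h := Real.exp_bound hx (n := 16) (by norm_num)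
  rw [abs_le] at h
  obtain ⟨h1, h2⟩ := h
  simp only [Finset.sum_range_succ, Finset.sum_range_zero, Nat.factorial] at h1 h2
  norm_num [abs_of_neg, abs_of_pos] at h1 h2
  have l1 : (653551017702729223 / 500000000000000000) ≤ exp (857 / 3200) := by norm_num; linarith
  have u1 : exp (857 / 3200) ≤ (1307102035405458447 / 1000000000000000000) := by norm_num; linarith
  have e : exp (857 / 100) = exp (857 / 3200) ^ 32 := by
    rw [← exp_nat_mul]; norm_num
  rw [e]
  constructor
  · refine le_trans ?_ (pow_le_pow_left₀ (by norm_num) l1 32)
    norm_num
  · refine (pow_le_pow_left₀ (exp_pos _).le u1 32).trans ?_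
    norm_num

theorem piece_16 {σ : ℝ} (h1 : 48 ≤ σ) (h2 : σ ≤ 60) (z : ℝ) :
    Rf σ + Tf σ * (z * (σ - z)) ≤ (111 / 100) * exp (σ - (3 / 5) * z) := by
  refine main (sc := 54) (H := 6) (z0c := (4543 / 60)) (b := (1577 / 1000)) (rc := (857 / 100)) (κ := (269 / 5000)) (lo := (52711297901887 / 10000000000)) (hi := (10542259580399 / 2000000000))
    (by norm_num) enc_16.1 enc_16.2 (by norm_num) (by norm_num) (by norm_num) (by norm_num) ?_ ?_
    (by linarith) (by linarith) z
  · intro h a1 a2
    linarith
  · intro h a1 a2
    have hu : 0 ≤ 6 - h := by linarith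
    have hv : 0 ≤ 6 + h := by linarith
    have key := bern9 hu hv
      (show (0 : ℝ) ≤ (2190070378128146196216559160291850515034088897688299 / 3149280000000000000000000000000000000000000000000000000) by norm_num)
      (show (0 : ℝ) ≤ (7581187229227125315325603313663834228179975410431701 / 1049760000000000000000000000000000000000000000000000000) by norm_num)
      (show (0 : ℝ) ≤ (1746191754812083813141747504524662950009353414193 / 52488000000000000000000000000000000000000000000000) by norm_num)
      (show (0 : ℝ) ≤ (11712310734343833580508171253165055874704190073511933 / 131220000000000000000000000000000000000000000000000000) by norm_num)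
      (show (0 : ℝ) ≤ (80679087192413434276216379986898279788375610679521701 / 524880000000000000000000000000000000000000000000000000) by norm_num)
      (show (0 : ℝ) ≤ (92484148426714602894961284363973152719194080507561701 / 524880000000000000000000000000000000000000000000000000) by norm_num)
      (show (0 : ℝ) ≤ (1960272185137932804310356981404533485989086507397437 / 14580000000000000000000000000000000000000000000000000) by norm_num)
      (show (0 : ℝ) ≤ (3456114816513918924237157397668172520781825683707 / 52488000000000000000000000000000000000000000000000) by norm_num)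
      (show (0 : ℝ) ≤ (19711461065600804606295498138888001200122864706051701 / 1049760000000000000000000000000000000000000000000000000) by norm_num)
      (show (0 : ℝ) ≤ (7478458302031900123131513283100845940625250394228299 / 3149280000000000000000000000000000000000000000000000000) by norm_num)
    refine key.trans_eq ?_
    unfold Tf Rf
    ring

theorem enc_17 : (25752596394757 / 2500000000) ≤ exp (231 / 25) ∧ exp (231 / 25) ≤ (103010385579237 / 10000000000) := by
  have hx : |((231 / 800) : ℝ)| ≤ 1 := by norm_num [abs_le]
  have h := Real.exp_bound hx (n := 16) (by norm_num)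
  rw [abs_le] at h
  obtain ⟨h1, h2⟩ := h
  simp only [Finset.sum_range_succ, Finset.sum_range_zero, Nat.factorial] at h1 h2
  norm_num [abs_of_neg, abs_of_pos] at h1 h2
  have l1 : (83422374832157263 / 62500000000000000) ≤ exp (231 / 800) := by norm_num; linarith
  have u1 : exp (231 / 800) ≤ (1334757997314516209 / 1000000000000000000) := by norm_num; linarith
  have e : exp (231 / 25) = exp (231 / 800) ^ 32 := by
    rw [← exp_nat_mul]; norm_num
  rw [e]
  constructor
  · refine le_trans ?_ (pow_le_pow_left₀ (by norm_num) l1 32)
    norm_num
  · refine (pow_le_pow_left₀ (exp_pos _).le u1 32).trans ?_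
    norm_num

theorem piece_17 {σ : ℝ} (h1 : 60 ≤ σ) (h2 : σ ≤ 76) (z : ℝ) :
    Rf σ + Tf σ * (z * (σ - z)) ≤ (111 / 100) * exp (σ - (3 / 5) * z) := by
  refine main (sc := 68) (H := 8) (z0c := (1469 / 15)) (b := (319 / 200)) (rc := (231 / 25)) (κ := (43 / 1000)) (lo := (25752596394757 / 2500000000)) (hi := (103010385579237 / 10000000000))
    (by norm_num) enc_17.1 enc_17.2 (by norm_num) (by norm_num) (by norm_num) (by norm_num) ?_ ?_
    (by linarith) (by linarith) z
  · intro h a1 a2
    linarith
  · intro h a1 a2
    have hu : 0 ≤ 8 - h := by linarith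
    have hv : 0 ≤ 8 + h := by linarith
    have key := bern9 hu hv
      (show (0 : ℝ) ≤ (17522695396185854330007019559548347994614988061 / 98304000000000000000000000000000000000000000000000) by norm_num)
      (show (0 : ℝ) ≤ (183398736419199805418509849525325090251672548817 / 98304000000000000000000000000000000000000000000000) by norm_num)
      (show (0 : ℝ) ≤ (1702010489389138248713370752243850330377163073 / 196608000000000000000000000000000000000000000000) by norm_num)
      (show (0 : ℝ) ≤ (574734709070650817461553695694767413414563953997 / 24576000000000000000000000000000000000000000000000) by norm_num)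
      (show (0 : ℝ) ≤ (1992408448158077882672521175660966379310392106067 / 49152000000000000000000000000000000000000000000000) by norm_num)
      (show (0 : ℝ) ≤ (2297976289906871892429816201615052890539058004567 / 49152000000000000000000000000000000000000000000000) by norm_num)
      (show (0 : ℝ) ≤ (881795815323724212763814498866838519924163003497 / 24576000000000000000000000000000000000000000000000) by norm_num)
      (show (0 : ℝ) ≤ (3473425267516885965972299246204232333467970677 / 196608000000000000000000000000000000000000000000) by norm_num)
      (show (0 : ℝ) ≤ (497682860356315591522599312235579319978667249317 / 98304000000000000000000000000000000000000000000000) by norm_num)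
      (show (0 : ℝ) ≤ (21069299823773073383514002926296446641223429187 / 32768000000000000000000000000000000000000000000000) by norm_num)
    refine key.trans_eq ?_
    unfold Tf Rf
    ring

theorem enc_18 : (9574444717713 / 500000000) ≤ exp (493 / 50) ∧ exp (493 / 50) ≤ (95744447177323 / 5000000000) := by
  have hx : |((493 / 1600) : ℝ)| ≤ 1 := by norm_num [abs_le]
  have h := Real.exp_bound hx (n := 16) (by norm_num)
  rw [abs_le] at h
  obtain ⟨h1, h2⟩ := h
  simp only [Finset.sum_range_succ, Finset.sum_range_zero, Nat.factorial] at h1 h2
  norm_num [abs_of_neg, abs_of_pos] at h1 h2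
  have l1 : (1360871087191686707 / 1000000000000000000) ≤ exp (493 / 1600) := by norm_num; linarith
  have u1 : exp (493 / 1600) ≤ (340217771797921677 / 250000000000000000) := by norm_num; linarith
  have e : exp (493 / 50) = exp (493 / 1600) ^ 32 := by
    rw [← exp_nat_mul]; norm_num
  rw [e]
  constructor
  · refine le_trans ?_ (pow_le_pow_left₀ (by norm_num) l1 32)
    norm_num
  · refine (pow_le_pow_left₀ (exp_pos _).le u1 32).trans ?_
    norm_num

theorem piece_18 {σ : ℝ} (h1 : 76 ≤ σ) (h2 : σ ≤ 92) (z : ℝ) :
    Rf σ + Tf σ * (z * (σ - z)) ≤ (111 / 100) * exp (σ - (3 / 5) * z) := by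
  refine main (sc := 84) (H := 8) (z0c := (3707 / 30)) (b := (201 / 125)) (rc := (493 / 50)) (κ := (22 / 625)) (lo := (9574444717713 / 500000000)) (hi := (95744447177323 / 5000000000))
    (by norm_num) enc_18.1 enc_18.2 (by norm_num) (by norm_num) (by norm_num) (by norm_num) ?_ ?_
    (by linarith) (by linarith) z
  · intro h a1 a2
    linarith
  · intro h a1 a2
    have hu : 0 ≤ 8 - h := by linarith
    have hv : 0 ≤ 8 + h := by linarith
    have key := bern9 hu hv
      (show (0 : ℝ) ≤ (82314204697931498305230452059186436304855116086683 / 128000000000000000000000000000000000000000000000000000) by norm_num)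
      (show (0 : ℝ) ≤ (833942785842407598547347184503248579452886203062451 / 128000000000000000000000000000000000000000000000000000) by norm_num)
      (show (0 : ℝ) ≤ (1499620674261890432703672251864757224628594012067 / 51200000000000000000000000000000000000000000000000) by norm_num)
      (show (0 : ℝ) ≤ (2454356272854246448140832318419035702372754395183991 / 32000000000000000000000000000000000000000000000000000) by norm_num)
      (show (0 : ℝ) ≤ (8251687828579984126735727825476328281248827872113701 / 64000000000000000000000000000000000000000000000000000) by norm_num)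
      (show (0 : ℝ) ≤ (9234381520232845780221294976847774006522993397833701 / 64000000000000000000000000000000000000000000000000000) by norm_num)
      (show (0 : ℝ) ≤ (3439691747852065730726649008182579134889037020423991 / 32000000000000000000000000000000000000000000000000000) by norm_num)
      (show (0 : ℝ) ≤ (2631653368246547473856308447348546113016562131683 / 51200000000000000000000000000000000000000000000000) by norm_num)
      (show (0 : ℝ) ≤ (1832042382931584721410460466361875643255420327822451 / 128000000000000000000000000000000000000000000000000000) by norm_num)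
      (show (0 : ℝ) ≤ (226286382814276379722915645385075421892514791326683 / 128000000000000000000000000000000000000000000000000000) by norm_num)
    refine key.trans_eq ?_
    unfold Tf Rf
    ring

theorem enc_19 : (359541573851193 / 10000000000) ≤ exp (1049 / 100) ∧ exp (1049 / 100) ≤ (71908314770383 / 2000000000) := by
  have hx : |((1049 / 3200) : ℝ)| ≤ 1 := by norm_num [abs_le]
  have h := Real.exp_bound hx (n := 16) (by norm_num)
  rw [abs_le] at h
  obtain ⟨h1, h2⟩ := h
  simp only [Finset.sum_range_succ, Finset.sum_range_zero, Nat.factorial] at h1 h2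
  norm_num [abs_of_neg, abs_of_pos] at h1 h2
  have l1 : (693964355628671189 / 500000000000000000) ≤ exp (1049 / 3200) := by norm_num; linarith
  have u1 : exp (1049 / 3200) ≤ (1387928711257342379 / 1000000000000000000) := by norm_num; linarith
  have e : exp (1049 / 100) = exp (1049 / 3200) ^ 32 := by
    rw [← exp_nat_mul]; norm_num
  rw [e]
  constructor
  · refine le_trans ?_ (pow_le_pow_left₀ (by norm_num) l1 32)
    norm_num
  · refine (pow_le_pow_left₀ (exp_pos _).le u1 32).trans ?_
    norm_num

theorem piece_19 {σ : ℝ} (h1 : 92 ≤ σ) (h2 : σ ≤ 116) (z : ℝ) :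
    Rf σ + Tf σ * (z * (σ - z)) ≤ (111 / 100) * exp (σ - (3 / 5) * z) := by
  refine main (sc := 104) (H := 12) (z0c := (3117 / 20)) (b := (1619 / 1000)) (rc := (1049 / 100)) (κ := (143 / 5000)) (lo := (359541573851193 / 10000000000)) (hi := (71908314770383 / 2000000000))
    (by norm_num) enc_19.1 enc_19.2 (by norm_num) (by norm_num) (by norm_num) (by norm_num) ?_ ?_
    (by linarith) (by linarith) z
  · intro h a1 a2
    linarith
  · intro h a1 a2
    have hu : 0 ≤ 12 - h := by linarith
    have hv : 0 ≤ 12 + h := by linarith
    have key := bern9 hu hv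
      (show (0 : ℝ) ≤ (1158094226538508354878035798942099318629797020926819 / 25194240000000000000000000000000000000000000000000000000) by norm_num)
      (show (0 : ℝ) ≤ (4001514570085847330220584549713124110048146607528181 / 8398080000000000000000000000000000000000000000000000000) by norm_num)
      (show (0 : ℝ) ≤ (229722829184979013734098975589728522298869521703 / 104976000000000000000000000000000000000000000000000) by norm_num)
      (show (0 : ℝ) ≤ (2046256426131971167250549447342929884365747289161591 / 349920000000000000000000000000000000000000000000000000) by norm_num)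
      (show (0 : ℝ) ≤ (42075832179433723797310864864229691521491189430713181 / 4199040000000000000000000000000000000000000000000000000) by norm_num)
      (show (0 : ℝ) ≤ (47941609599130700483181983918473801431593393085198181 / 4199040000000000000000000000000000000000000000000000000) by norm_num)
      (show (0 : ℝ) ≤ (9080083314992366546860401950474204428746897566332273 / 1049760000000000000000000000000000000000000000000000000) by norm_num)
      (show (0 : ℝ) ≤ (1763842958085546129892485057811979325388348147513 / 419904000000000000000000000000000000000000000000000) by norm_num)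
      (show (0 : ℝ) ≤ (9960238609721742235924637571491536729572387802833181 / 8398080000000000000000000000000000000000000000000000000) by norm_num)
      (show (0 : ℝ) ≤ (3734018673828557927947022461478552292212184181411819 / 25194240000000000000000000000000000000000000000000000000) by norm_num)
    refine key.trans_eq ?_
    unfold Tf Rf
    ring

theorem enc_20 : (13367238276831 / 200000000) ≤ exp (1111 / 100) ∧ exp (1111 / 100) ≤ (66836191384289 / 1000000000) := by
  have hx : |((1111 / 3200) : ℝ)| ≤ 1 := by norm_num [abs_le]
  have h := Real.exp_bound hx (n := 16) (by norm_num)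
  rw [abs_le] at h
  obtain ⟨h1, h2⟩ := h
  simp only [Finset.sum_range_succ, Finset.sum_range_zero, Nat.factorial] at h1 h2
  norm_num [abs_of_neg, abs_of_pos] at h1 h2
  have l1 : (1415082028377815301 / 1000000000000000000) ≤ exp (1111 / 3200) := by norm_num; linarith
  have u1 : exp (1111 / 3200) ≤ (707541014188907651 / 500000000000000000) := by norm_num; linarith
  have e : exp (1111 / 100) = exp (1111 / 3200) ^ 32 := by
    rw [← exp_nat_mul]; norm_num
  rw [e]
  constructor
  · refine le_trans ?_ (pow_le_pow_left₀ (by norm_num) l1 32)
    norm_num
  · refine (pow_le_pow_left₀ (exp_pos _).le u1 32).trans ?_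
    norm_num

theorem piece_20 {σ : ℝ} (h1 : 116 ≤ σ) (h2 : σ ≤ 140) (z : ℝ) :
    Rf σ + Tf σ * (z * (σ - z)) ≤ (111 / 100) * exp (σ - (3 / 5) * z) := by
  refine main (sc := 128) (H := 12) (z0c := (11689 / 60)) (b := (407 / 250)) (rc := (1111 / 100)) (κ := (29 / 1250)) (lo := (13367238276831 / 200000000)) (hi := (66836191384289 / 1000000000))
    (by norm_num) enc_20.1 enc_20.2 (by norm_num) (by norm_num) (by norm_num) (by norm_num) ?_ ?_
    (by linarith) (by linarith) z
  · intro h a1 a2
    linarith
  · intro h a1 a2
    have hu : 0 ≤ 12 - h := by linarith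
    have hv : 0 ≤ 12 + h := by linarith
    have key := bern9 hu hv
      (show (0 : ℝ) ≤ (29174767049030202045153662776964457146970289052567 / 196830000000000000000000000000000000000000000000000000) by norm_num)
      (show (0 : ℝ) ≤ (97335088284616192148739516710478331841043593179933 / 65610000000000000000000000000000000000000000000000000) by norm_num)
      (show (0 : ℝ) ≤ (172762296317827606366112104222611132101955388589 / 26244000000000000000000000000000000000000000000000) by norm_num)
      (show (0 : ℝ) ≤ (92944855538912145634447220694877285802207328714251 / 5467500000000000000000000000000000000000000000000000) by norm_num)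
      (show (0 : ℝ) ≤ (923583795839890864184207028919076675548460388113683 / 32805000000000000000000000000000000000000000000000000) by norm_num)
      (show (0 : ℝ) ≤ (1017224883221963744226880288189477871290710830478683 / 32805000000000000000000000000000000000000000000000000) by norm_num)
      (show (0 : ℝ) ≤ (372490700214002875751297580106064381296019597347753 / 16402500000000000000000000000000000000000000000000000) by norm_num)
      (show (0 : ℝ) ≤ (279812711895855710708454605727835806464624382661 / 26244000000000000000000000000000000000000000000000) by norm_num)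
      (show (0 : ℝ) ≤ (190982004142603925251583549131130349234758313224933 / 65610000000000000000000000000000000000000000000000000) by norm_num)
      (show (0 : ℝ) ≤ (69264386768477826243555833008684836393924393917567 / 196830000000000000000000000000000000000000000000000000) by norm_num)
    refine key.trans_eq ?_
    unfold Tf Rf
    ring

theorem enc_21 : (161642688438363 / 1250000000) ≤ exp (1177 / 100) ∧ exp (1177 / 100) ≤ (1293141507509493 / 10000000000) := by
  have hx : |((1177 / 3200) : ℝ)| ≤ 1 := by norm_num [abs_le]
  have h := Real.exp_bound hx (n := 16) (by norm_num)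
  rw [abs_le] at h
  obtain ⟨h1, h2⟩ := h
  simp only [Finset.sum_range_succ, Finset.sum_range_zero, Nat.factorial] at h1 h2
  norm_num [abs_of_neg, abs_of_pos] at h1 h2
  have l1 : (1444571156487598177 / 1000000000000000000) ≤ exp (1177 / 3200) := by norm_num; linarith
  have u1 : exp (1177 / 3200) ≤ (722285578243799089 / 500000000000000000) := by norm_num; linarith
  have e : exp (1177 / 100) = exp (1177 / 3200) ^ 32 := by
    rw [← exp_nat_mul]; norm_num
  rw [e]
  constructor
  · refine le_trans ?_ (pow_le_pow_left₀ (by norm_num) l1 32)
    norm_num
  · refine (pow_le_pow_left₀ (exp_pos _).le u1 32).trans ?_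
    norm_num

theorem piece_21 {σ : ℝ} (h1 : 140 ≤ σ) (h2 : σ ≤ 180) (z : ℝ) :
    Rf σ + Tf σ * (z * (σ - z)) ≤ (111 / 100) * exp (σ - (3 / 5) * z) := by
  refine main (sc := 160) (H := 20) (z0c := (4941 / 20)) (b := (409 / 250)) (rc := (1177 / 100)) (κ := (23 / 1250)) (lo := (161642688438363 / 1250000000)) (hi := (1293141507509493 / 10000000000))
    (by norm_num) enc_21.1 enc_21.2 (by norm_num) (by norm_num) (by norm_num) (by norm_num) ?_ ?_
    (by linarith) (by linarith) z
  · intro h a1 a2
    linarith
  · intro h a1 a2
    have hu : 0 ≤ 20 - h := by linarith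
    have hv : 0 ≤ 20 + h := by linarith
    have key := bern9 hu hv
      (show (0 : ℝ) ≤ (1326665811157211125585993944090825903372178060549 / 375000000000000000000000000000000000000000000000000000) by norm_num)
      (show (0 : ℝ) ≤ (13596776313330851217318554079194461617177351666853 / 375000000000000000000000000000000000000000000000000000) by norm_num)
      (show (0 : ℝ) ≤ (122871336987224599337614177161043355477785533481 / 750000000000000000000000000000000000000000000000000) by norm_num)
      (show (0 : ℝ) ≤ (13398049676772142149120701429533762592306458487491 / 31250000000000000000000000000000000000000000000000000) by norm_num)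
      (show (0 : ℝ) ≤ (134209585274130783305216878132691248612002475082603 / 187500000000000000000000000000000000000000000000000000) by norm_num)
      (show (0 : ℝ) ≤ (148118386895228924266662557581765777642502314099603 / 187500000000000000000000000000000000000000000000000000) by norm_num)
      (show (0 : ℝ) ≤ (17991746475344973983596019512799249672676496850491 / 31250000000000000000000000000000000000000000000000000) by norm_num)
      (show (0 : ℝ) ≤ (200063637935661988727182614021114104937337912769 / 750000000000000000000000000000000000000000000000000) by norm_num)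
      (show (0 : ℝ) ≤ (26656064323408681514226923125997620395494642827853 / 375000000000000000000000000000000000000000000000000000) by norm_num)
      (show (0 : ℝ) ≤ (3096478635021471288092920744020320390714061899549 / 375000000000000000000000000000000000000000000000000000) by norm_num)
    refine key.trans_eq ?_
    unfold Tf Rf
    ring

theorem enc_22 : (2501960276021447 / 10000000000) ≤ exp (1243 / 100) ∧ exp (1243 / 100) ≤ (2501960276026453 / 10000000000) := by
  have hx : |((1243 / 3200) : ℝ)| ≤ 1 := by norm_num [abs_le]
  have h := Real.exp_bound hx (n := 16) (by norm_num)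
  rw [abs_le] at h
  obtain ⟨h1, h2⟩ := h
  simp only [Finset.sum_range_succ, Finset.sum_range_zero, Nat.factorial] at h1 h2
  norm_num [abs_of_neg, abs_of_pos] at h1 h2
  have l1 : (1474674813408599203 / 1000000000000000000) ≤ exp (1243 / 3200) := by norm_num; linarith
  have u1 : exp (1243 / 3200) ≤ (368668703352149801 / 250000000000000000) := by norm_num; linarith
  have e : exp (1243 / 100) = exp (1243 / 3200) ^ 32 := by
    rw [← exp_nat_mul]; norm_num
  rw [e]
  constructor
  · refine le_trans ?_ (pow_le_pow_left₀ (by norm_num) l1 32)
    norm_num
  · refine (pow_le_pow_left₀ (exp_pos _).le u1 32).trans ?_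
    norm_num

theorem piece_22 {σ : ℝ} (h1 : 180 ≤ σ) (h2 : σ ≤ 220) (z : ℝ) :
    Rf σ + Tf σ * (z * (σ - z)) ≤ (111 / 100) * exp (σ - (3 / 5) * z) := by
  refine main (sc := 200) (H := 20) (z0c := (18757 / 60)) (b := (821 / 500)) (rc := (1243 / 100)) (κ := (37 / 2500)) (lo := (2501960276021447 / 10000000000)) (hi := (2501960276026453 / 10000000000))
    (by norm_num) enc_22.1 enc_22.2 (by norm_num) (by norm_num) (by norm_num) (by norm_num) ?_ ?_
    (by linarith) (by linarith) z
  · intro h a1 a2
    linarith
  · intro h a1 a2
    have hu : 0 ≤ 20 - h := by linarith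
    have hv : 0 ≤ 20 + h := by linarith
    have key := bern9 hu hv
      (show (0 : ℝ) ≤ (9294549901272591981681265681906473540686799166283 / 1125000000000000000000000000000000000000000000000000000) by norm_num)
      (show (0 : ℝ) ≤ (87555884715946082611525462995220637728173550797151 / 1125000000000000000000000000000000000000000000000000000) by norm_num)
      (show (0 : ℝ) ≤ (721809408045506674755566433122694150546749156191 / 2250000000000000000000000000000000000000000000000000) by norm_num)
      (show (0 : ℝ) ≤ (212969957058240801085556985557235049619136746137691 / 281250000000000000000000000000000000000000000000000000) by norm_num)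
      (show (0 : ℝ) ≤ (631147337812169849427012285286929627103172475982901 / 562500000000000000000000000000000000000000000000000000) by norm_num)
      (show (0 : ℝ) ≤ (603696783373843189152763650940572141971412786407401 / 562500000000000000000000000000000000000000000000000000) by norm_num)
      (show (0 : ℝ) ≤ (183649749923250613230303069290608911541351135029191 / 281250000000000000000000000000000000000000000000000000) by norm_num)
      (show (0 : ℝ) ≤ (532481639258594833796656099592785550974581645059 / 2250000000000000000000000000000000000000000000000000) by norm_num)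
      (show (0 : ℝ) ≤ (48527438856648606311529970963777809019516630655651 / 1125000000000000000000000000000000000000000000000000000) by norm_num)
      (show (0 : ℝ) ≤ (283348614877488170010588795926993974356729923087 / 125000000000000000000000000000000000000000000000000000) by norm_num)
    refine key.trans_eq ?_
    unfold Tf Rf
    ring

theorem central {σ : ℝ} (h1 : -3 ≤ σ) (h2 : σ ≤ 220) (z : ℝ) :
    Rf σ + Tf σ * (z * (σ - z)) ≤ (111 / 100) * exp (σ - (3 / 5) * z) := by
  by_cases h10 : σ ≤ (-2)
  · exact piece_0 (by linarith) h10 z
  rw [not_le] at h10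
  by_cases h11 : σ ≤ (-1)
  · exact piece_1 (by linarith) h11 z
  rw [not_le] at h11
  by_cases h12 : σ ≤ 0
  · exact piece_2 (by linarith) h12 z
  rw [not_le] at h12
  by_cases h13 : σ ≤ 1
  · exact piece_3 (by linarith) h13 z
  rw [not_le] at h13
  by_cases h14 : σ ≤ 2
  · exact piece_4 (by linarith) h14 z
  rw [not_le] at h14
  by_cases h15 : σ ≤ 3
  · exact piece_5 (by linarith) h15 z
  rw [not_le] at h15
  by_cases h16 : σ ≤ 5
  · exact piece_6 (by linarith) h16 z
  rw [not_le] at h16
  by_cases h17 : σ ≤ (13 / 2)
  · exact piece_7 (by linarith) h17 z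
  rw [not_le] at h17
  by_cases h18 : σ ≤ 8
  · exact piece_8 (by linarith) h18 z
  rw [not_le] at h18
  by_cases h19 : σ ≤ 10
  · exact piece_9 (by linarith) h19 z
  rw [not_le] at h19
  by_cases h20 : σ ≤ 12
  · exact piece_10 (by linarith) h20 z
  rw [not_le] at h20
  by_cases h21 : σ ≤ 16
  · exact piece_11 (by linarith) h21 z
  rw [not_le] at h21
  by_cases h22 : σ ≤ 20
  · exact piece_12 (by linarith) h22 z
  rw [not_le] at h22
  by_cases h23 : σ ≤ 28
  · exact piece_13 (by linarith) h23 z
  rw [not_le] at h23
  by_cases h24 : σ ≤ 36
  · exact piece_14 (by linarith) h24 z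
  rw [not_le] at h24
  by_cases h25 : σ ≤ 48
  · exact piece_15 (by linarith) h25 z
  rw [not_le] at h25
  by_cases h26 : σ ≤ 60
  · exact piece_16 (by linarith) h26 z
  rw [not_le] at h26
  by_cases h27 : σ ≤ 76
  · exact piece_17 (by linarith) h27 z
  rw [not_le] at h27
  by_cases h28 : σ ≤ 92
  · exact piece_18 (by linarith) h28 z
  rw [not_le] at h28
  by_cases h29 : σ ≤ 116
  · exact piece_19 (by linarith) h29 z
  rw [not_le] at h29
  by_cases h30 : σ ≤ 140
  · exact piece_20 (by linarith) h30 z
  rw [not_le] at h30
  by_cases h31 : σ ≤ 180
  · exact piece_21 (by linarith) h31 z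
  rw [not_le] at h31
  exact piece_22 (by linarith) h2 z

end Pool.Agent.H48.RMJ
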